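import Pool.Agent.TH542.Kam.Kill

/-!
# Kameko's squaring operation is not injective for `d ≥ 5` (positive degrees) and `d = 4` (degree 0)
-/

set_option autoImplicit false
set_option linter.unusedSimpArgs false

namespace Pool.Agent.TH542.Kam

open MvPolynomial

variable {d : ℕ}

theorem aug_mem (n : ℕ) (w : Matrix.GeneralLinearGroup (Fin d) (ZMod 2)) (z : PH d n) :
    actPH d n w z - z ∈ aug d n := Submodule.subset_span ⟨w, z, rfl⟩

/-- The augmentation subspace is killed by evaluation at the invariant polynomial. -/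
theorem aug_eval {n : ℕ} {f : P d} (hf : ∀ w : Matrix.GeneralLinearGroup (Fin d) (ZMod 2),
    act w.1 f + f ∈ Hit d) {y : PH d n} (hy : y ∈ aug d n) : y.1 f = 0 := by
  unfold aug at hy
  induction hy using Submodule.span_induction with
  | mem x hx =>
    obtain ⟨w, z, rfl⟩ := hx
    show z.1 (act w.1 f) - z.1 f = 0
    have := PH_Hit z.2 (hf w)
    rw [map_add] at this
    have h2 : z.1 (act w.1 f) = z.1 f := by
      have h3 := z2 (z.1 (act w.1 f))
      have h4 := z2 (z.1 f)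
      rcases h3 with h3 | h3 <;> rcases h4 with h4 | h4 <;> rw [h3, h4] at this ⊢
      · simp at this
      · simp at this
    rw [h2, sub_self]
  | zero => rfl
  | add x y _ _ hx hy =>
    show x.1 f + y.1 f = 0
    rw [hx, hy, add_zero]
  | smul c x _ hx =>
    show c * x.1 f = 0
    rw [hx, mul_zero]

/-- The exponent vector with entries `i, j, k, l` in the four given places and `ρ` elsewhere. -/
noncomputable def ex (v : Fin 4 → Fin d) (ρ : Fin d →₀ ℕ) (i j k l : ℕ) : Fin d →₀ ℕ :=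
  Finsupp.single (v 0) i + Finsupp.single (v 1) j + Finsupp.single (v 2) k +
    Finsupp.single (v 3) l + ρ

section
variable {v : Fin 4 → Fin d} (hv : Function.Injective v) {ρ : Fin d →₀ ℕ} (hρ : ∀ i, ρ (v i) = 0)
include hv hρ

theorem ex0 (i j k l : ℕ) : ex v ρ i j k l (v 0) = i := by
  have h1 := hv.ne (show (1 : Fin 4) ≠ 0 by decide)
  have h2 := hv.ne (show (2 : Fin 4) ≠ 0 by decide)
  have h3 := hv.ne (show (3 : Fin 4) ≠ 0 by decide)
  simp [ex, hρ, h1, h2, h3]

theorem ex1 (i j k l : ℕ) : ex v ρ i j k l (v 1) = j := by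
  have h1 := hv.ne (show (0 : Fin 4) ≠ 1 by decide)
  have h2 := hv.ne (show (2 : Fin 4) ≠ 1 by decide)
  have h3 := hv.ne (show (3 : Fin 4) ≠ 1 by decide)
  simp [ex, hρ, h1, h2, h3]

theorem ex2 (i j k l : ℕ) : ex v ρ i j k l (v 2) = k := by
  have h1 := hv.ne (show (0 : Fin 4) ≠ 2 by decide)
  have h2 := hv.ne (show (1 : Fin 4) ≠ 2 by decide)
  have h3 := hv.ne (show (3 : Fin 4) ≠ 2 by decide)
  simp [ex, hρ, h1, h2, h3]

theorem ex3 (i j k l : ℕ) : ex v ρ i j k l (v 3) = l := by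
  have h1 := hv.ne (show (0 : Fin 4) ≠ 3 by decide)
  have h2 := hv.ne (show (1 : Fin 4) ≠ 3 by decide)
  have h3 := hv.ne (show (2 : Fin 4) ≠ 3 by decide)
  simp [ex, hρ, h1, h2, h3]

omit hv hρ in
theorem ex_other (i j k l : ℕ) (m : Fin d) (hm : ∀ a, m ≠ v a) :
    ex v ρ i j k l m = ρ m := by
  simp [ex, hm]

omit hρ hv in
theorem sum_ex (i j k l : ℕ) : ∑ m, ex v ρ i j k l m = i + j + k + l + ∑ m, ρ m := by
  simp [ex, Finset.sum_add_distrib, Finsupp.single_apply]

end

/-- The key computation: if `e` is a spike vanishing in four places `v 0, …, v 3`, then the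
functional `cf e'` with `e' = 2 e + 1` lies in the augmentation subspace. -/
theorem key {v : Fin 4 → Fin d} (hv : Function.Injective v) {ρ : Fin d →₀ ℕ}
    (hρ : ∀ i, ρ (v i) = 0) (hs : Spike ρ) (n : ℕ) (hn : 4 + ∑ m, ρ m = n)
    (h : cf (ex v ρ 1 1 1 1) ∈ PH d n) : (⟨cf (ex v ρ 1 1 1 1), h⟩ : PH d n) ∈ aug d n := by
  have n01 := hv.ne (show (0 : Fin 4) ≠ 1 by decide)
  have n02 := hv.ne (show (0 : Fin 4) ≠ 2 by decide)
  have n03 := hv.ne (show (0 : Fin 4) ≠ 3 by decide)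
  have n12 := hv.ne (show (1 : Fin 4) ≠ 2 by decide)
  have n13 := hv.ne (show (1 : Fin 4) ≠ 3 by decide)
  have n23 := hv.ne (show (2 : Fin 4) ≠ 3 by decide)
  have hspike : ∀ i j k l, (∃ a, i = 2 ^ a - 1) → (∃ a, j = 2 ^ a - 1) → (∃ a, k = 2 ^ a - 1) →
      (∃ a, l = 2 ^ a - 1) → Spike (ex v ρ i j k l) := by
    intro i j k l hi hj hk hl m
    by_cases hm : ∀ a, m ≠ v a
    · rw [ex_other i j k l m hm]; exact hs m
    · push Not at hm
      obtain ⟨a, rfl⟩ := hm
      fin_cases a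
      · show ∃ k_1, ex v ρ i j k l (v 0) = _
        rw [ex0 hv hρ]; exact hi
      · show ∃ k_1, ex v ρ i j k l (v 1) = _
        rw [ex1 hv hρ]; exact hj
      · show ∃ k_1, ex v ρ i j k l (v 2) = _
        rw [ex2 hv hρ]; exact hk
      · show ∃ k_1, ex v ρ i j k l (v 3) = _
        rw [ex3 hv hρ]; exact hl
  have s0 : ∃ a, 0 = 2 ^ a - 1 := ⟨0, by norm_num⟩
  have s1 : ∃ a, 1 = 2 ^ a - 1 := ⟨1, by norm_num⟩
  have s3 : ∃ a, 3 = 2 ^ a - 1 := ⟨2, by norm_num⟩
  -- the moves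
  have mv01 : ∀ i j k l q, q ≤ i → ex v ρ i j k l - Finsupp.single (v 0) q +
      Finsupp.single (v 1) q = ex v ρ (i - q) (j + q) k l := by
    intro i j k l q hq
    ext m
    by_cases hm : ∀ a, m ≠ v a
    · simp [ex_other, hm]
    · push Not at hm
      obtain ⟨a, rfl⟩ := hm
      fin_cases a <;>
      simp [ex0 hv hρ, ex1 hv hρ, ex2 hv hρ, ex3 hv hρ, n01, n02, n03, n12, n13, n23,
        n01.symm, n02.symm, n03.symm, n12.symm, n13.symm, n23.symm]
  have mv02 : ∀ i j k l q, q ≤ i → ex v ρ i j k l - Finsupp.single (v 0) q +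
      Finsupp.single (v 2) q = ex v ρ (i - q) j (k + q) l := by
    intro i j k l q hq
    ext m
    by_cases hm : ∀ a, m ≠ v a
    · simp [ex_other, hm]
    · push Not at hm
      obtain ⟨a, rfl⟩ := hm
      fin_cases a <;>
      simp [ex0 hv hρ, ex1 hv hρ, ex2 hv hρ, ex3 hv hρ, n01, n02, n03, n12, n13, n23,
        n01.symm, n02.symm, n03.symm, n12.symm, n13.symm, n23.symm]
  have mv12 : ∀ i j k l q, q ≤ j → ex v ρ i j k l - Finsupp.single (v 1) q +
      Finsupp.single (v 2) q = ex v ρ i (j - q) (k + q) l := by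
    intro i j k l q hq
    ext m
    by_cases hm : ∀ a, m ≠ v a
    · simp [ex_other, hm]
    · push Not at hm
      obtain ⟨a, rfl⟩ := hm
      fin_cases a <;>
      simp [ex0 hv hρ, ex1 hv hρ, ex2 hv hρ, ex3 hv hρ, n01, n02, n03, n12, n13, n23,
        n01.symm, n02.symm, n03.symm, n12.symm, n13.symm, n23.symm]
  have mv13 : ∀ i j k l q, q ≤ j → ex v ρ i j k l - Finsupp.single (v 1) q +
      Finsupp.single (v 3) q = ex v ρ i (j - q) k (l + q) := by
    intro i j k l q hq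
    ext m
    by_cases hm : ∀ a, m ≠ v a
    · simp [ex_other, hm]
    · push Not at hm
      obtain ⟨a, rfl⟩ := hm
      fin_cases a <;>
      simp [ex0 hv hρ, ex1 hv hρ, ex2 hv hρ, ex3 hv hρ, n01, n02, n03, n12, n13, n23,
        n01.symm, n02.symm, n03.symm, n12.symm, n13.symm, n23.symm]
  have two : ∀ z : Module.Dual (ZMod 2) (P d), z + z = 0 := fun z => by
    apply LinearMap.ext
    intro f
    exact CharTwo.add_self_eq_zero _
  have hneg : ∀ z : Module.Dual (ZMod 2) (P d), -z = z := fun z =>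
    (eq_neg_of_add_eq_zero_left (two z)).symm
  set c := fun i j k l => cf (ex v ρ i j k l) with hc
  -- the actions of the transvections
  have a01 : (c 3 0 0 1).comp (act (tv (v 0) (v 1) n01).1).toLinearMap =
      c 3 0 0 1 + c 2 1 0 1 + c 1 2 0 1 + c 0 3 0 1 := by
    rw [hc]
    simp only
    rw [cf_tv (v 0) (v 1) n01 _ (ex1 hv hρ _ _ _ _), ex0 hv hρ]
    simp only [Finset.sum_range_succ, Finset.sum_range_zero, zero_add]
    rw [mv01 3 0 0 1 0 (by norm_num), mv01 3 0 0 1 1 (by norm_num), mv01 3 0 0 1 2 (by norm_num),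
      mv01 3 0 0 1 3 (by norm_num)]
  have a02 : (c 3 1 0 0).comp (act (tv (v 0) (v 2) n02).1).toLinearMap =
      c 3 1 0 0 + c 2 1 1 0 + c 1 1 2 0 + c 0 1 3 0 := by
    rw [hc]
    simp only
    rw [cf_tv (v 0) (v 2) n02 _ (ex2 hv hρ _ _ _ _), ex0 hv hρ]
    simp only [Finset.sum_range_succ, Finset.sum_range_zero, zero_add]
    rw [mv02 3 1 0 0 0 (by norm_num), mv02 3 1 0 0 1 (by norm_num), mv02 3 1 0 0 2 (by norm_num),
      mv02 3 1 0 0 3 (by norm_num)]
  have b1 : (c 2 1 1 0).comp (act (tv (v 1) (v 3) n13).1).toLinearMap =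
      c 2 1 1 0 + c 2 0 1 1 := by
    rw [hc]
    simp only
    rw [cf_tv (v 1) (v 3) n13 _ (ex3 hv hρ _ _ _ _), ex1 hv hρ]
    simp only [Finset.sum_range_succ, Finset.sum_range_zero, zero_add]
    rw [mv13 2 1 1 0 0 (by norm_num), mv13 2 1 1 0 1 (by norm_num)]
  have b2 : (c 1 1 2 0).comp (act (tv (v 1) (v 3) n13).1).toLinearMap =
      c 1 1 2 0 + c 1 0 2 1 := by
    rw [hc]
    simp only
    rw [cf_tv (v 1) (v 3) n13 _ (ex3 hv hρ _ _ _ _), ex1 hv hρ]
    simp only [Finset.sum_range_succ, Finset.sum_range_zero, zero_add]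
    rw [mv13 1 1 2 0 0 (by norm_num), mv13 1 1 2 0 1 (by norm_num)]
  have b3 : (c 2 1 0 1).comp (act (tv (v 1) (v 2) n12).1).toLinearMap =
      c 2 1 0 1 + c 2 0 1 1 := by
    rw [hc]
    simp only
    rw [cf_tv (v 1) (v 2) n12 _ (ex2 hv hρ _ _ _ _), ex1 hv hρ]
    simp only [Finset.sum_range_succ, Finset.sum_range_zero, zero_add]
    rw [mv12 2 1 0 1 0 (by norm_num), mv12 2 1 0 1 1 (by norm_num)]
  have b4 : (c 1 2 0 1).comp (act (tv (v 1) (v 2) n12).1).toLinearMap =
      c 1 2 0 1 + c 1 1 1 1 + c 1 0 2 1 := by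
    rw [hc]
    simp only
    rw [cf_tv (v 1) (v 2) n12 _ (ex2 hv hρ _ _ _ _), ex1 hv hρ]
    simp only [Finset.sum_range_succ, Finset.sum_range_zero, zero_add]
    rw [mv12 1 2 0 1 0 (by norm_num), mv12 1 2 0 1 1 (by norm_num), mv12 1 2 0 1 2 (by norm_num)]
  -- primitivity
  have hA1 : c 2 1 0 1 + c 1 2 0 1 ∈ PH d n := by
    have h1 : c 3 0 0 1 ∈ PH d n := cf_mem_PH (hspike _ _ _ _ s3 s0 s0 s1) (by
      rw [sum_ex]; omega)
    have h2 : c 0 3 0 1 ∈ PH d n := cf_mem_PH (hspike _ _ _ _ s0 s3 s0 s1) (by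
      rw [sum_ex]; omega)
    have h3 := act_mem_PH (tv (v 0) (v 1) n01).1 h1
    rw [a01] at h3
    have h4 := (PH d n).add_mem ((PH d n).add_mem h3 h1) h2
    have e : c 3 0 0 1 + c 2 1 0 1 + c 1 2 0 1 + c 0 3 0 1 + c 3 0 0 1 + c 0 3 0 1 =
        c 2 1 0 1 + c 1 2 0 1 + (c 3 0 0 1 + c 3 0 0 1) + (c 0 3 0 1 + c 0 3 0 1) := by abel
    rwa [e, two, two, add_zero, add_zero] at h4
  have hZ : c 2 1 1 0 + c 1 1 2 0 ∈ PH d n := by
    have h1 : c 3 1 0 0 ∈ PH d n := cf_mem_PH (hspike _ _ _ _ s3 s1 s0 s0) (by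
      rw [sum_ex]; omega)
    have h2 : c 0 1 3 0 ∈ PH d n := cf_mem_PH (hspike _ _ _ _ s0 s1 s3 s0) (by
      rw [sum_ex]; omega)
    have h3 := act_mem_PH (tv (v 0) (v 2) n02).1 h1
    rw [a02] at h3
    have h4 := (PH d n).add_mem ((PH d n).add_mem h3 h1) h2
    have e : c 3 1 0 0 + c 2 1 1 0 + c 1 1 2 0 + c 0 1 3 0 + c 3 1 0 0 + c 0 1 3 0 =
        c 2 1 1 0 + c 1 1 2 0 + (c 3 1 0 0 + c 3 1 0 0) + (c 0 1 3 0 + c 0 1 3 0) := by abel
    rwa [e, two, two, add_zero, add_zero] at h4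
  have r1 := aug_mem n (tv (v 1) (v 2) n12) ⟨c 2 1 0 1 + c 1 2 0 1, hA1⟩
  have r2 := aug_mem n (tv (v 1) (v 3) n13) ⟨c 2 1 1 0 + c 1 1 2 0, hZ⟩
  have r3 := (aug d n).add_mem r1 r2
  have e : (⟨c 1 1 1 1, h⟩ : PH d n) =
      actPH d n (tv (v 1) (v 2) n12) ⟨c 2 1 0 1 + c 1 2 0 1, hA1⟩ - ⟨c 2 1 0 1 + c 1 2 0 1, hA1⟩ +
      (actPH d n (tv (v 1) (v 3) n13) ⟨c 2 1 1 0 + c 1 1 2 0, hZ⟩ -
        ⟨c 2 1 1 0 + c 1 1 2 0, hZ⟩) := by
    apply Subtype.ext
    show c 1 1 1 1 = (c 2 1 0 1 + c 1 2 0 1).comp (act (tv (v 1) (v 2) n12).1).toLinearMap -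
      (c 2 1 0 1 + c 1 2 0 1) +
      ((c 2 1 1 0 + c 1 1 2 0).comp (act (tv (v 1) (v 3) n13).1).toLinearMap -
      (c 2 1 1 0 + c 1 1 2 0))
    rw [LinearMap.add_comp, LinearMap.add_comp, b1, b2, b3, b4]
    have e2 : c 2 1 0 1 + c 2 0 1 1 + (c 1 2 0 1 + c 1 1 1 1 + c 1 0 2 1) -
        (c 2 1 0 1 + c 1 2 0 1) + (c 2 1 1 0 + c 2 0 1 1 + (c 1 1 2 0 + c 1 0 2 1) -
        (c 2 1 1 0 + c 1 1 2 0)) =
        c 1 1 1 1 + (c 2 0 1 1 + c 2 0 1 1) + (c 1 0 2 1 + c 1 0 2 1) := by abel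
    rw [e2, two, two, add_zero, add_zero]
  rw [e]
  exact r3

/-- If `e` is a spike which vanishes in four places then Kameko's operation kills the class of
`cf e`. -/
theorem SqTilde_spike {v : Fin 4 → Fin d} (hv : Function.Injective v) {e : Fin d →₀ ℕ}
    (he : ∀ i, e (v i) = 0) (hs : Spike e) (n : ℕ) (hn : cf e ∈ PH d n) (hne : ∑ i, e i = n) :
    SqTilde d n (Submodule.Quotient.mk ⟨cf e, hn⟩) = 0 := by
  classical
  set ρ : Fin d →₀ ℕ := Finsupp.equivFunOnFinite.symm
    (fun m => if ∃ a, m = v a then 0 else 2 * e m + 1) with hρdef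
  have hρ : ∀ i, ρ (v i) = 0 := by
    intro i
    show (if ∃ a, v i = v a then 0 else 2 * e (v i) + 1) = 0
    rw [if_pos ⟨i, rfl⟩]
  have hρs : Spike ρ := by
    intro m
    show ∃ k, (if ∃ a, m = v a then 0 else 2 * e m + 1) = 2 ^ k - 1
    split_ifs with hm
    · exact ⟨0, by norm_num⟩
    · obtain ⟨k, hk⟩ := hs m
      refine ⟨k + 1, ?_⟩
      have : 0 < 2 ^ k := by positivity
      rw [hk, pow_succ]; omega
  have hex : ∀ i, ex v ρ 1 1 1 1 i = 2 * e i + 1 := by
    intro m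
    by_cases hm : ∀ a, m ≠ v a
    · rw [ex_other 1 1 1 1 m hm]
      show (if ∃ a, m = v a then 0 else 2 * e m + 1) = _
      rw [if_neg]
      rintro ⟨a, ha⟩
      exact hm a ha
    · push Not at hm
      obtain ⟨a, rfl⟩ := hm
      rw [he]
      fin_cases a
      · exact ex0 hv hρ _ _ _ _
      · exact ex1 hv hρ _ _ _ _
      · exact ex2 hv hρ _ _ _ _
      · exact ex3 hv hρ _ _ _ _
  have hk : (cf e).comp (kdown d) = cf (ex v ρ 1 1 1 1) := cf_kdown _ _ hex
  have hmem : cf (ex v ρ 1 1 1 1) ∈ PH d (d + 2 * n) := by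
    rw [← hk]; exact kdown_mem_PH hn
  have hsum : 4 + ∑ m, ρ m = d + 2 * n := by
    have h1 := sum_ex (v := v) (ρ := ρ) 1 1 1 1
    rw [Finset.sum_congr rfl (fun i _ => hex i), Finset.sum_add_distrib, ← Finset.mul_sum, hne]
      at h1
    simp at h1
    omega
  have h0 := key hv hρ hρs (d + 2 * n) hsum hmem
  have h1 : KamMap d n ⟨cf e, hn⟩ = ⟨cf (ex v ρ 1 1 1 1), hmem⟩ := Subtype.ext hk
  show Submodule.mapQ _ _ (KamMap d n) _ (Submodule.Quotient.mk _) = 0
  rw [Submodule.mapQ_apply, h1, Submodule.Quotient.mk_eq_zero]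
  exact h0

theorem F_zeros {R : Type*} [CommRing R] : ∀ (l : List R) (s : ℕ), l.length ≤ s →
    (∀ a ∈ l, a = 0) → F s l = 0 := by
  intro l
  induction l with
  | nil => intro s _ _; rfl
  | cons a l ih =>
    intro s hs hl
    rw [List.length_cons] at hs
    have ha : a = 0 := hl a List.mem_cons_self
    show F s l + a ^ (2 ^ s - 1) + a * (F (s - 1) l) ^ 2 = 0
    rw [ih s (by omega) (fun x hx => hl x (List.mem_cons_of_mem _ hx)), ha, zero_pow, zero_mul]
    · simp
    · have : 2 ^ 1 ≤ 2 ^ s := Nat.pow_le_pow_right (by norm_num) (by omega)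
      omega

theorem F_one_entry {R : Type*} [CommRing R] (T : R) (l₂ : List R) (h2 : ∀ a ∈ l₂, a = 0) :
    ∀ (l₁ : List R) (s : ℕ), l₁.length + l₂.length + 1 ≤ s → (∀ a ∈ l₁, a = 0) →
    F s (l₁ ++ T :: l₂) = T ^ (2 ^ s - 1) := by
  intro l₁
  induction l₁ with
  | nil =>
    intro s hs _
    simp only [List.length_nil] at hs
    show F s l₂ + T ^ (2 ^ s - 1) + T * (F (s - 1) l₂) ^ 2 = _
    rw [F_zeros l₂ s (by omega) h2, F_zeros l₂ (s - 1) (by omega) h2]
    simp
  | cons a l ih =>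
    intro s hs hl
    rw [List.length_cons] at hs
    have ha : a = 0 := hl a List.mem_cons_self
    show F s (l ++ T :: l₂) + a ^ (2 ^ s - 1) + a * (F (s - 1) (l ++ T :: l₂)) ^ 2 = _
    rw [ih s (by omega) (fun x hx => hl x (List.mem_cons_of_mem _ hx)), ha, zero_pow, zero_mul]
    · simp
    · have : 2 ^ 1 ≤ 2 ^ s := Nat.pow_le_pow_right (by norm_num) (by omega)
      omega

/-- The substitution `X_j ↦ T`, `X_i ↦ 0` for `i ≠ j`. -/
noncomputable def restr (j : Fin d) : P d →ₐ[ZMod 2] Polynomial (ZMod 2) :=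
  aeval (fun i => if i = j then Polynomial.X else 0)

theorem coeff_restr (j : Fin d) (m : ℕ) (f : P d) :
    f.coeff (Finsupp.single j m) = (restr j f).coeff m := by
  classical
  have h : cf (Finsupp.single j m) =
      ((Polynomial.lcoeff (ZMod 2) m).comp (restr j).toLinearMap) := by
    refine (basisMonomials (Fin d) (ZMod 2)).ext (fun t => ?_)
    rw [coe_basisMonomials]
    show coeff (Finsupp.single j m) (monomial t 1 : P d) = (restr j (monomial t 1)).coeff m
    rw [coeff_monomial, monomial_one_eq, map_prod]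
    simp only [map_pow, restr, aeval_X]
    by_cases ht : ∀ i, i ≠ j → t i = 0
    · have ht2 : t = Finsupp.single j (t j) := by
        ext i
        by_cases hi : i = j
        · subst hi; simp
        · rw [ht i hi, Finsupp.single_eq_of_ne hi]
      rw [Finset.prod_eq_single j]
      · rw [if_pos rfl, Polynomial.coeff_X_pow]
        by_cases hm : m = t j
        · rw [if_pos hm, if_pos (by rw [ht2]; simp [hm])]
        · rw [if_neg hm, if_neg]
          intro h'
          apply hm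
          rw [h']; simp
      · intro b _ hb
        rw [ht b hb, pow_zero]
      · intro h; exact absurd (Finset.mem_univ j) h
    · push Not at ht
      obtain ⟨i, hi, hti⟩ := ht
      rw [if_neg, Finset.prod_eq_zero (Finset.mem_univ i), Polynomial.coeff_zero]
      · rw [if_neg hi, zero_pow hti]
      · intro h'
        apply hti
        rw [h', Finsupp.single_eq_of_ne hi]
  exact congrArg (fun g : P d →ₗ[ZMod 2] ZMod 2 => g f) h

theorem coeff_FX (j : Fin d) (s : ℕ) (hs : d ≤ s) :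
    (FX d s).coeff (Finsupp.single j (2 ^ s - 1)) = 1 := by
  rw [coeff_restr]
  have h1 : restr j (FX d s) = F s (List.ofFn (fun i : Fin d =>
      if i = j then (Polynomial.X : Polynomial (ZMod 2)) else 0)) := by
    unfold FX
    have := F_map (restr j : P d →+* Polynomial (ZMod 2))
      (List.ofFn (fun i : Fin d => (X i : P d))) s
    refine this.trans ?_
    rw [List.map_ofFn]
    congr 2
    ext1 i
    show restr j (X i) = _
    unfold restr
    rw [aeval_X]
  rw [h1, List.ofFn_eq_map]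
  obtain ⟨l₁, l₂, hl⟩ := List.append_of_mem (List.mem_finRange j)
  have hnd := List.nodup_finRange d
  rw [hl] at hnd
  rw [List.nodup_append, List.nodup_cons] at hnd
  have hlen : l₁.length + l₂.length + 1 = d := by
    have := congrArg List.length hl
    simp at this
    omega
  rw [hl, List.map_append, List.map_cons, if_pos rfl, F_one_entry]
  · rw [Polynomial.coeff_X_pow, if_pos rfl]
  · intro a ha
    obtain ⟨k, hk, rfl⟩ := List.mem_map.1 ha
    rw [if_neg]
    rintro rfl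
    exact hnd.2.1.1 hk
  · simp only [List.length_map]; omega
  · intro a ha
    obtain ⟨k, hk, rfl⟩ := List.mem_map.1 ha
    rw [if_neg]
    rintro rfl
    exact hnd.2.2 _ hk _ List.mem_cons_self rfl

/-- For `d ≥ 5` and `s ≥ d` Kameko's squaring operation is not injective in degree `2^s - 1`. -/
theorem not_injective_of_five_le (hd : 5 ≤ d) (s : ℕ) (hs : d ≤ s) :
    ¬ Function.Injective (SqTilde d (2 ^ s - 1)) := by
  intro hinj
  set j : Fin d := ⟨4, by omega⟩ with hj
  set v : Fin 4 → Fin d := Fin.castLE (by omega) with hvdef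
  have hv : Function.Injective v := Fin.castLE_injective _
  have hvj : ∀ i, v i ≠ j := by
    intro i h
    have := congrArg Fin.val h
    simp [hvdef, hj] at this
    omega
  set e : Fin d →₀ ℕ := Finsupp.single j (2 ^ s - 1) with he
  have hev : ∀ i, e (v i) = 0 := fun i => Finsupp.single_eq_of_ne (hvj i)
  have hes : Spike e := by
    intro i
    by_cases hi : i = j
    · subst hi; exact ⟨s, by rw [he, Finsupp.single_eq_same]⟩
    · exact ⟨0, by rw [he, Finsupp.single_eq_of_ne hi]; norm_num⟩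
  have hsum : ∑ i, e i = 2 ^ s - 1 := by
    rw [Finset.sum_eq_single j, he, Finsupp.single_eq_same]
    · intro i _ hi
      rw [he, Finsupp.single_eq_of_ne hi]
    · intro h; exact absurd (Finset.mem_univ j) h
  have hmem := cf_mem_PH hes hsum
  have h1 := SqTilde_spike hv hev hes _ hmem hsum
  have h2 : (Submodule.Quotient.mk (⟨cf e, hmem⟩ : PH d (2 ^ s - 1)) :
      Coinv d (2 ^ s - 1)) = 0 := by
    apply hinj
    rw [h1, map_zero]
  rw [Submodule.Quotient.mk_eq_zero] at h2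
  have h3 := aug_eval (f := FX d s) (fun w => act_FX s hs w.1 (by
    have := w.isUnit
    rw [Matrix.isUnit_iff_isUnit_det] at this
    exact this.ne_zero)) h2
  have h4 : (FX d s).coeff e = 0 := h3
  rw [he, coeff_FX j s hs] at h4
  exact one_ne_zero h4

/-- For `d ≥ 4` Kameko's squaring operation is not injective in degree `0`. -/
theorem not_injective_zero (hd : 4 ≤ d) : ¬ Function.Injective (SqTilde d 0) := by
  intro hinj
  set v : Fin 4 → Fin d := Fin.castLE hd with hvdef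
  have hv : Function.Injective v := Fin.castLE_injective _
  have hes : Spike (0 : Fin d →₀ ℕ) := fun i => ⟨0, by simp⟩
  have hsum : ∑ i, (0 : Fin d →₀ ℕ) i = 0 := by simp
  have hmem := cf_mem_PH hes hsum
  have h1 := SqTilde_spike hv (fun i => rfl) hes _ hmem hsum
  have h2 : (Submodule.Quotient.mk (⟨cf 0, hmem⟩ : PH d 0) : Coinv d 0) = 0 := by
    apply hinj
    rw [h1, map_zero]
  rw [Submodule.Quotient.mk_eq_zero] at h2
  have h3 := aug_eval (f := (1 : P d)) (fun w => by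
    rw [map_one, char_two_add_self]; exact Submodule.zero_mem _) h2
  have h4 : (1 : P d).coeff 0 = 0 := h3
  rw [coeff_zero_one] at h4
  exact one_ne_zero h4

end Pool.Agent.TH542.Kam
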