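import Pool.Agent.TH542.Kam.Stmt
import Pool.Agent.TH542.Kam.Main

set_option autoImplicit false

namespace Pool.Agent.TH542.KamStmt

open MvPolynomial

variable {d : ℕ}

theorem totalSq_eq (f : P d) : totalSq d f = Kam.totalSq d f := by
  have h : totalSq d = (Kam.totalSq d : P d →+* Polynomial (P d)) := by
    apply MvPolynomial.ringHom_ext
    · intro r
      simp [totalSq, Kam.totalSq, Polynomial.algebraMap_apply, algebraMap_eq]
    · intro i
      simp [totalSq, Kam.totalSq]
  exact congrArg (fun g : P d →+* Polynomial (P d) => g f) h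

theorem Sq_eq (k : ℕ) (f : P d) : Sq d k f = Kam.Sq d k f := by
  unfold Sq
  rw [totalSq_eq]
  rfl

theorem act_eq (w : Matrix.GeneralLinearGroup (Fin d) (ZMod 2)) (f : P d) :
    act w f = Kam.act w.1 f := rfl

theorem kdown_eq (f : P d) : kdown d f = Kam.kdown d f := by
  conv_rhs => rw [f.as_sum, map_sum]
  unfold kdown
  refine Finset.sum_congr rfl (fun t _ => ?_)
  rw [Kam.kdown_monomial]

/-- The linear functional attached to an element of `H`. -/
noncomputable def toDual {n : ℕ} {z : P d → ZMod 2} (hz : z ∈ H d n) : Module.Dual (ZMod 2) (P d) :=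
  (AddMonoidHom.mk' z hz.1).toZModLinearMap 2

theorem toDual_apply {n : ℕ} {z : P d → ZMod 2} (hz : z ∈ H d n) (f : P d) :
    toDual hz f = z f := rfl

theorem mem_PH_of {n : ℕ} {z : Module.Dual (ZMod 2) (P d)} (hz : z ∈ Kam.PH d n) :
    (fun f => z f) ∈ PH d n :=
  ⟨⟨fun f g => map_add z f g, fun s hs => hz.1 s hs⟩, fun k hk f => by
    show z (Sq d k f) = 0
    rw [Sq_eq]; exact hz.2 k hk f⟩

theorem PH_mem {n : ℕ} {z : P d → ZMod 2} (hz : z ∈ PH d n) : toDual hz.1 ∈ Kam.PH d n :=
  ⟨fun s hs => hz.1.2 s hs, fun k hk f => by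
    rw [toDual_apply, ← Sq_eq]; exact hz.2 k hk f⟩

theorem mem_Aug_of {n : ℕ} {y : Kam.PH d n} (hy : y ∈ Kam.aug d n) :
    (fun f => y.1 f) ∈ Aug d n := by
  unfold Kam.aug at hy
  induction hy using Submodule.span_induction with
  | mem x hx =>
    obtain ⟨w, z, rfl⟩ := hx
    exact AddSubgroup.subset_closure ⟨w, fun f => z.1 f, mem_PH_of z.2, rfl⟩
  | zero => exact (Aug d n).zero_mem
  | add x y _ _ hx hy => exact (Aug d n).add_mem hx hy
  | smul c x _ hx =>
    rcases Kam.z2 c with rfl | rfl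
    · have : (fun f => ((0 : ZMod 2) • x).1 f) = 0 := by
        ext f
        show (0 : ZMod 2) * x.1 f = 0
        rw [zero_mul]
      rw [this]; exact (Aug d n).zero_mem
    · have : (fun f => ((1 : ZMod 2) • x).1 f) = fun f => x.1 f := by
        ext f
        show (1 : ZMod 2) * x.1 f = x.1 f
        rw [one_mul]
      rw [this]; exact hx

theorem Aug_mem {n : ℕ} {y : P d → ZMod 2} (hy : y ∈ Aug d n) :
    ∃ x : Kam.PH d n, x ∈ Kam.aug d n ∧ ∀ f, x.1 f = y f := by
  unfold Aug at hy
  induction hy using AddSubgroup.closure_induction with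
  | mem x hx =>
    obtain ⟨w, z, hz, rfl⟩ := hx
    exact ⟨_, Kam.aug_mem n w ⟨toDual hz.1, PH_mem hz⟩, fun f => rfl⟩
  | zero => exact ⟨0, (Kam.aug d n).zero_mem, fun f => rfl⟩
  | add x y _ _ hx hy =>
    obtain ⟨a, ha, ha'⟩ := hx
    obtain ⟨b, hb, hb'⟩ := hy
    refine ⟨a + b, (Kam.aug d n).add_mem ha hb, fun f => ?_⟩
    show a.1 f + b.1 f = x f + y f
    rw [ha', hb']
  | neg x _ hx =>
    obtain ⟨a, ha, ha'⟩ := hx
    refine ⟨-a, (Kam.aug d n).neg_mem ha, fun f => ?_⟩
    show -(a.1 f) = -(x f)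
    rw [ha']

/-- The elementary form of the injectivity implies the injectivity of the map of quotients. -/
theorem injective_of_kamekoInjective {n : ℕ} (h : KamekoInjective d n) :
    Function.Injective (Kam.SqTilde d n) := by
  have h0 : ∀ x, Kam.SqTilde d n x = 0 → x = 0 := by
    intro x hx
    obtain ⟨z, rfl⟩ := Submodule.Quotient.mk_surjective _ x
    change Submodule.mapQ _ _ (Kam.KamMap d n) _ (Submodule.Quotient.mk z) = 0 at hx
    rw [Submodule.mapQ_apply, Submodule.Quotient.mk_eq_zero] at hx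
    have h1 := mem_Aug_of hx
    have h2 : (fun f => (Kam.KamMap d n z).1 f) = fun f => (fun g => z.1 g) (kdown d f) := by
      ext f
      show z.1 (Kam.kdown d f) = z.1 (kdown d f)
      rw [kdown_eq]
    rw [h2] at h1
    have h3 := h (fun f => z.1 f) (mem_PH_of z.2) h1
    obtain ⟨x, hx1, hx2⟩ := Aug_mem h3
    rw [Submodule.Quotient.mk_eq_zero]
    have : x = z := Subtype.ext (LinearMap.ext hx2)
    rwa [this] at hx1
  intro a b hab
  have := h0 (a - b) (by rw [map_sub, hab, sub_self])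
  exact sub_eq_zero.1 this

end Pool.Agent.TH542.KamStmt
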