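import Mathlib

/-!
# Kameko's squaring operation on the coinvariants of the primitives: definitions

`P d` is the polynomial algebra over the field with two elements in `d` variables, with the
Steenrod squares `Sq d k`; `H d n` is the degree `n` part of its graded dual, `PH d n` the subspace
of the functionals killed by the dual squares, `coinv d n` the coinvariants of `PH d n` under the
general linear group, and `SqTilde d n` Kameko's squaring operation
`coinv d n → coinv d (d + 2 n)`.
-/

set_option autoImplicit false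

namespace Pool.Agent.TH542.Kam

open MvPolynomial

/-- The polynomial algebra `𝔽₂[x_1, …, x_d]`. -/
abbrev P (d : ℕ) := MvPolynomial (Fin d) (ZMod 2)

/-- The total Steenrod square: the algebra homomorphism `P d → (P d)[T]` with
`x_i ↦ x_i + x_i² T`. -/
noncomputable def totalSq (d : ℕ) : P d →ₐ[ZMod 2] Polynomial (P d) :=
  aeval (fun i => Polynomial.C (X i) + Polynomial.C (X i ^ 2) * Polynomial.X)

/-- The Steenrod square `Sq^k` on `P d`: the coefficient of `T^k` in the total square. Thus
`Sq^0 = id`, `Sq^1 x_i = x_i²`, `Sq^k x_i = 0` for `k > 1`, and the Cartan formula holds. -/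
noncomputable def Sq (d k : ℕ) : P d →ₗ[ZMod 2] P d :=
  ((Polynomial.lcoeff (P d) k).restrictScalars (ZMod 2)).comp (totalSq d).toLinearMap

/-- The linear substitution `x_j ↦ ∑ i, w i j x_i` attached to a matrix. -/
noncomputable def act {d : ℕ} (w : Matrix (Fin d) (Fin d) (ZMod 2)) : P d →ₐ[ZMod 2] P d :=
  aeval (fun j => ∑ i, C (w i j) * X i)

/-- The linear map sending `x_1^(t_1) ⋯ x_d^(t_d)` to `x_1^((t_1-1)/2) ⋯ x_d^((t_d-1)/2)` if all
`t_i` are odd and to `0` otherwise. -/
noncomputable def kdown (d : ℕ) : P d →ₗ[ZMod 2] P d :=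
  (basisMonomials (Fin d) (ZMod 2)).constr (ZMod 2) (fun t : Fin d →₀ ℕ =>
    if ∀ i, Odd (t i) then monomial (t.mapRange (fun a => (a - 1) / 2) rfl) 1 else 0)

/-- The degree `n` part of the graded dual of `P d`: the functionals vanishing on all monomials of
degree different from `n`. The functional dual to the monomial `x^s` is the divided power monomial
`a_1^(s_1) ⋯ a_d^(s_d)`. -/
def H (d n : ℕ) : Submodule (ZMod 2) (Module.Dual (ZMod 2) (P d)) where
  carrier := {z | ∀ s : Fin d →₀ ℕ, ∑ i, s i ≠ n → z (monomial s 1) = 0}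
  zero_mem' := fun _ _ => rfl
  add_mem' := fun ha hb s hs => by
    rw [LinearMap.add_apply, ha s hs, hb s hs, add_zero]
  smul_mem' := fun c z hz s hs => by
    rw [LinearMap.smul_apply, hz s hs, smul_zero]

/-- The primitives: the elements of `H d n` annihilated by all the dual squares
`z ↦ z ∘ Sq^k`, `k > 0`. -/
def PH (d n : ℕ) : Submodule (ZMod 2) (Module.Dual (ZMod 2) (P d)) where
  carrier := {z | z ∈ H d n ∧ ∀ k, 0 < k → ∀ f, z (Sq d k f) = 0}
  zero_mem' := ⟨(H d n).zero_mem, fun _ _ _ => rfl⟩
  add_mem' := fun ha hb => ⟨(H d n).add_mem ha.1 hb.1, fun k hk f => by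
    rw [LinearMap.add_apply, ha.2 k hk f, hb.2 k hk f, add_zero]⟩
  smul_mem' := fun c z hz => ⟨(H d n).smul_mem c hz.1, fun k hk f => by
    rw [LinearMap.smul_apply, hz.2 k hk f, smul_zero]⟩

/-! ### Compatibility of the squares with linear substitutions -/

section
variable {d : ℕ}

theorem C_pow_two (c : ZMod 2) : c ^ 2 = c := by revert c; decide

theorem add_sq' (a b : P d) : (a + b) ^ 2 = a ^ 2 + b ^ 2 := by
  have h : (2 : P d) = 0 := CharTwo.two_eq_zero
  rw [add_sq, h]; ring

theorem sum_sq' {ι : Type*} (s : Finset ι) (f : ι → P d) :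
    (∑ i ∈ s, f i) ^ 2 = ∑ i ∈ s, f i ^ 2 := by
  classical
  induction s using Finset.induction_on with
  | empty => simp
  | insert a s ha ih => rw [Finset.sum_insert ha, Finset.sum_insert ha, add_sq', ih]

/-- `a` is linear: its total square is `a + a² T`. -/
def Lin (a : P d) : Prop :=
  totalSq d a = Polynomial.C a + Polynomial.C (a ^ 2) * Polynomial.X

theorem Lin_X (i : Fin d) : Lin (X i : P d) := by
  unfold Lin totalSq
  rw [aeval_X]

theorem Lin_add {a b : P d} (ha : Lin a) (hb : Lin b) : Lin (a + b) := by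
  unfold Lin at *
  rw [map_add, ha, hb, add_sq', Polynomial.C_add, Polynomial.C_add]
  ring

theorem Lin_zero : Lin (0 : P d) := by
  unfold Lin
  simp

theorem Lin_C_mul (c : ZMod 2) {a : P d} (ha : Lin a) : Lin (C c * a) := by
  have h : c = 0 ∨ c = 1 := by revert c; decide
  rcases h with rfl | rfl
  · simpa using Lin_zero
  · simpa using ha

theorem Lin_sum {ι : Type*} (s : Finset ι) (f : ι → P d) (h : ∀ i ∈ s, Lin (f i)) :
    Lin (∑ i ∈ s, f i) := by
  classical
  induction s using Finset.induction_on with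
  | empty => simpa using Lin_zero
  | insert a s ha ih =>
    rw [Finset.sum_insert ha]
    exact Lin_add (h a (Finset.mem_insert_self a s))
      (ih (fun i hi => h i (Finset.mem_insert_of_mem hi)))

theorem Lin_act_X (w : Matrix (Fin d) (Fin d) (ZMod 2)) (j : Fin d) :
    Lin (act w (X j)) := by
  unfold act
  rw [aeval_X]
  exact Lin_sum _ _ (fun i _ => Lin_C_mul _ (Lin_X i))

theorem totalSq_act (w : Matrix (Fin d) (Fin d) (ZMod 2)) (f : P d) :
    totalSq d (act w f) = Polynomial.mapAlgHom (act w) (totalSq d f) := by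
  have h : (totalSq d).comp (act w) = (Polynomial.mapAlgHom (act w)).comp (totalSq d) := by
    apply algHom_ext
    intro j
    rw [AlgHom.comp_apply, AlgHom.comp_apply, Lin_act_X w j, Lin_X j]
    simp
  exact congrArg (fun g : P d →ₐ[ZMod 2] Polynomial (P d) => g f) h

theorem Sq_apply (k : ℕ) (f : P d) : Sq d k f = (totalSq d f).coeff k := rfl

theorem Sq_act (w : Matrix (Fin d) (Fin d) (ZMod 2)) (k : ℕ) (f : P d) :
    Sq d k (act w f) = act w (Sq d k f) := by
  rw [Sq_apply, Sq_apply, totalSq_act, Polynomial.coe_mapAlgHom, Polynomial.coeff_map]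
  rfl

theorem act_X (w : Matrix (Fin d) (Fin d) (ZMod 2)) (j : Fin d) :
    act w (X j) = ∑ i, C (w i j) * X i := by
  unfold act; rw [aeval_X]

theorem act_mul (A B : Matrix (Fin d) (Fin d) (ZMod 2)) (f : P d) :
    act (A * B) f = act A (act B f) := by
  have h : act (A * B) = (act A).comp (act B) := by
    apply algHom_ext
    intro j
    rw [AlgHom.comp_apply, act_X, act_X, map_sum]
    have : ∀ i, act A (C (B i j) * X i) = ∑ k, C (A k i * B i j) * X k := by
      intro i
      rw [map_mul, act_X, Finset.mul_sum]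
      refine Finset.sum_congr rfl (fun k _ => ?_)
      have : act A (C (B i j)) = C (B i j) := by
        unfold act; exact aeval_C _ _
      rw [this, C_mul]; ring
    simp_rw [this]
    rw [Finset.sum_comm]
    refine Finset.sum_congr rfl (fun k _ => ?_)
    rw [Matrix.mul_apply, map_sum, Finset.sum_mul]
  exact congrArg (fun g : P d →ₐ[ZMod 2] P d => g f) h

theorem act_one (f : P d) : act (1 : Matrix (Fin d) (Fin d) (ZMod 2)) f = f := by
  have h : act (1 : Matrix (Fin d) (Fin d) (ZMod 2)) = AlgHom.id (ZMod 2) (P d) := by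
    apply algHom_ext
    intro j
    rw [act_X, Finset.sum_eq_single j]
    · simp
    · intro b _ hb
      rw [Matrix.one_apply_ne hb]; simp
    · intro hj; exact absurd (Finset.mem_univ j) hj
  exact congrArg (fun g : P d →ₐ[ZMod 2] P d => g f) h

/-- A functional of degree `n` kills the homogeneous polynomials of degree different from `n`. -/
theorem H_apply_homogeneous {n m : ℕ} (hnm : m ≠ n) {z : Module.Dual (ZMod 2) (P d)}
    (hz : z ∈ H d n) {f : P d} (hf : f.IsHomogeneous m) : z f = 0 := by
  rw [f.as_sum, map_sum]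
  refine Finset.sum_eq_zero (fun s hs => ?_)
  have h1 : ∑ i, s i = m := by
    have := hf (mem_support_iff.1 hs)
    rw [← this, Finsupp.weight_apply, Finsupp.sum_fintype]
    · simp
    · simp
  have h2 : (monomial s (f.coeff s) : P d) = (f.coeff s) • (monomial s 1) := by
    rw [smul_monomial, smul_eq_mul, mul_one]
  rw [h2, map_smul, hz s (by rw [h1]; exact hnm), smul_zero]

theorem act_homogeneous (w : Matrix (Fin d) (Fin d) (ZMod 2)) {m : ℕ} {f : P d}
    (hf : f.IsHomogeneous m) : (act w f).IsHomogeneous m := by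
  have := hf.aeval (fun j => ∑ i, C (w i j) * X i) (n := 1) (fun j => by
    refine IsHomogeneous.sum _ _ _ (fun i _ => ?_)
    have := (isHomogeneous_C (Fin d) (w i j)).mul (isHomogeneous_X (ZMod 2) i)
    simpa using this)
  simpa [act] using this

theorem act_mem_H (w : Matrix (Fin d) (Fin d) (ZMod 2)) {n : ℕ}
    {z : Module.Dual (ZMod 2) (P d)} (hz : z ∈ H d n) :
    z.comp (act w).toLinearMap ∈ H d n := by
  intro s hs
  refine H_apply_homogeneous (m := ∑ i, s i) hs hz ?_
  refine act_homogeneous w ?_
  have := isHomogeneous_monomial (R := ZMod 2) (σ := Fin d) (d := s) (n := ∑ i, s i) 1 (by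
    rw [Finsupp.degree_eq_sum])
  exact this

theorem act_mem_PH (w : Matrix (Fin d) (Fin d) (ZMod 2)) {n : ℕ}
    {z : Module.Dual (ZMod 2) (P d)} (hz : z ∈ PH d n) :
    z.comp (act w).toLinearMap ∈ PH d n := by
  refine ⟨act_mem_H w hz.1, fun k hk f => ?_⟩
  show z (act w (Sq d k f)) = 0
  rw [← Sq_act]
  exact hz.2 k hk _

end

end Pool.Agent.TH542.Kam
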