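import Pool.Agent.TH542.Kam.Defs

/-!
# Kameko's map is well defined on the coinvariants of the primitives
-/

set_option autoImplicit false

namespace Pool.Agent.TH542.Kam

open MvPolynomial

variable {d : ℕ}

theorem kdown_monomial (t : Fin d →₀ ℕ) (c : ZMod 2) :
    kdown d (monomial t c) = if ∀ i, Odd (t i) then
      monomial (t.mapRange (fun a => (a - 1) / 2) rfl) c else 0 := by
  have h2 : (monomial t c : P d) = c • (monomial t 1) := by
    rw [smul_monomial, smul_eq_mul, mul_one]
  rw [h2, map_smul]
  have h3 : kdown d (monomial t 1) = if ∀ i, Odd (t i) then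
      monomial (t.mapRange (fun a => (a - 1) / 2) rfl) 1 else 0 := by
    have := (basisMonomials (Fin d) (ZMod 2)).constr_basis (ZMod 2) (fun t : Fin d →₀ ℕ =>
      if ∀ i, Odd (t i) then (monomial (t.mapRange (fun a => (a - 1) / 2) rfl) 1 : P d) else 0) t
    rw [coe_basisMonomials] at this
    exact this
  rw [h3]
  split_ifs
  · rw [smul_monomial, smul_eq_mul, mul_one]
  · rw [smul_zero]

/-- `κ (a² b) = a κ(b)`. -/
theorem kdown_sq_mul (a b : P d) : kdown d (a ^ 2 * b) = a * kdown d b := by
  induction a using MvPolynomial.induction_on' with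
  | monomial s c =>
    induction b using MvPolynomial.induction_on' with
    | monomial t e =>
      rw [monomial_pow, monomial_mul, kdown_monomial, kdown_monomial]
      have h1 : (∀ i, Odd ((2 • s + t) i)) ↔ ∀ i, Odd (t i) := by
        refine forall_congr' (fun i => ?_)
        rw [Finsupp.add_apply, Finsupp.smul_apply, smul_eq_mul]
        rw [Nat.odd_add]
        constructor
        · intro h
          by_contra hc
          rw [Nat.not_odd_iff_even] at hc
          have := h.2 hc
          rw [Nat.odd_iff] at this
          omega
        · intro h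
          constructor
          · intro h'; rw [Nat.odd_iff] at h'; omega
          · intro h'; rw [Nat.odd_iff] at h; rw [Nat.even_iff] at h'; omega
      by_cases h : ∀ i, Odd (t i)
      · rw [if_pos h, if_pos (h1.2 h), monomial_mul, C_pow_two]
        have h5 : Finsupp.mapRange (fun a => (a - 1) / 2) rfl (2 • s + t) =
            s + Finsupp.mapRange (fun a => (a - 1) / 2) rfl t := by
          ext i
          rw [Finsupp.mapRange_apply, Finsupp.add_apply, Finsupp.add_apply,
            Finsupp.mapRange_apply, Finsupp.smul_apply, smul_eq_mul]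
          have := h i
          rw [Nat.odd_iff] at this
          omega
        rw [h5]
      · rw [if_neg h, if_neg (fun h' => h (h1.1 h')), mul_zero]
    | add p q hp hq => rw [mul_add, map_add, hp, hq, map_add, mul_add]
  | add p q hp hq => rw [add_sq', add_mul, map_add, hp, hq, add_mul]

/-- `κ` of a square free monomial. -/
theorem kdown_prod (S : Finset (Fin d)) :
    kdown d (∏ i ∈ S, X i) = if S = Finset.univ then 1 else 0 := by
  classical
  have h : (∏ i ∈ S, X i : P d) = monomial (Finsupp.indicator S (fun _ _ => 1)) 1 := by
    rw [monomial_eq, C_1, one_mul, Finsupp.prod_fintype _ _ (fun i => pow_zero _)]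
    rw [← Finset.prod_subset (Finset.subset_univ S)]
    · refine Finset.prod_congr rfl (fun i hi => ?_)
      rw [Finsupp.indicator_of_mem hi, pow_one]
    · intro i _ hi
      rw [Finsupp.indicator_of_notMem hi, pow_zero]
  rw [h, kdown_monomial]
  by_cases hS : S = Finset.univ
  · rw [if_pos hS, if_pos]
    · subst hS
      have : Finsupp.mapRange (fun a => (a - 1) / 2) rfl
          (Finsupp.indicator (Finset.univ : Finset (Fin d)) (fun _ _ => 1)) = 0 := by
        ext i
        rw [Finsupp.mapRange_apply, Finsupp.indicator_of_mem (Finset.mem_univ i)]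
        rfl
      rw [this]
      rfl
    · intro i
      subst hS
      rw [Finsupp.indicator_of_mem (Finset.mem_univ i)]
      exact odd_one
  · rw [if_neg hS, if_neg]
    intro h'
    apply hS
    rw [Finset.eq_univ_iff_forall]
    intro i
    by_contra hi
    have := h' i
    rw [Finsupp.indicator_of_notMem hi] at this
    exact absurd this (by decide)

/-- To prove a statement on polynomials which is stable under sums, it is enough to treat the
polynomials `x_S g²`. -/
theorem induction_sq {p : P d → Prop} (hadd : ∀ f g, p f → p g → p (f + g))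
    (hs : ∀ (S : Finset (Fin d)) (g : P d), p ((∏ i ∈ S, X i) * g ^ 2)) (f : P d) : p f := by
  classical
  induction f using MvPolynomial.induction_on' with
  | monomial t c =>
    have h : (monomial t c : P d) = (∏ i ∈ Finset.univ.filter (fun i => Odd (t i)), X i) *
        (monomial (t.mapRange (fun a => a / 2) rfl) c) ^ 2 := by
      have h : (∏ i ∈ Finset.univ.filter (fun i => Odd (t i)), X i : P d) =
          monomial (Finsupp.indicator (Finset.univ.filter (fun i => Odd (t i)))
            (fun _ _ => 1)) 1 := by
        rw [monomial_eq, C_1, one_mul, Finsupp.prod_fintype _ _ (fun i => pow_zero _)]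
        rw [← Finset.prod_subset (Finset.subset_univ (Finset.univ.filter (fun i => Odd (t i))))]
        · refine Finset.prod_congr rfl (fun i hi => ?_)
          rw [Finsupp.indicator_of_mem hi, pow_one]
        · intro i _ hi
          rw [Finsupp.indicator_of_notMem hi, pow_zero]
      rw [h, monomial_pow, monomial_mul, one_mul, C_pow_two]
      have h5 : t = Finsupp.indicator (Finset.univ.filter (fun i => Odd (t i)))
          (fun _ _ => 1) + 2 • Finsupp.mapRange (fun a => a / 2) rfl t := by
        ext i
        rw [Finsupp.add_apply, Finsupp.smul_apply, Finsupp.mapRange_apply, smul_eq_mul]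
        by_cases hi : Odd (t i)
        · rw [Finsupp.indicator_of_mem (by simpa using hi)]
          rw [Nat.odd_iff] at hi
          omega
        · rw [Finsupp.indicator_of_notMem (by simpa using hi)]
          rw [Nat.not_odd_iff_even, Nat.even_iff] at hi
          omega
      rw [← h5]
    rw [h]
    exact hs _ _
  | add f g hf hg => exact hadd f g hf hg

theorem totalSq_prod_X (S : Finset (Fin d)) :
    totalSq d (∏ i ∈ S, X i) = ∑ R ∈ S.powerset,
      Polynomial.C ((∏ i ∈ R, X i) ^ 2 * ∏ i ∈ S \ R, X i) * Polynomial.X ^ R.card := by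
  classical
  rw [map_prod]
  have h : ∀ i, totalSq d (X i) = Polynomial.C (X i ^ 2) * Polynomial.X + Polynomial.C (X i) := by
    intro i; rw [Lin_X i, add_comm]
  simp_rw [h]
  rw [Finset.prod_add]
  refine Finset.sum_congr rfl (fun R _ => ?_)
  rw [Finset.prod_mul_distrib, Finset.prod_const, ← map_prod, ← map_prod, Finset.prod_pow,
    Polynomial.C_mul]
  ring

theorem coeff_sq (G : Polynomial (P d)) (k : ℕ) :
    (G ^ 2).coeff k = if 2 ∣ k then (G.coeff (k / 2)) ^ 2 else 0 := by
  rw [← Polynomial.map_frobenius_expand 2, Polynomial.coeff_map, Polynomial.coeff_expand (by norm_num)]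
  split_ifs
  · rfl
  · rw [map_zero]

/-- `κ ∘ Sq^k` is `Sq^(k/2) ∘ κ` for `k` even and zero for `k` odd. -/
theorem kdown_Sq (k : ℕ) (f : P d) :
    kdown d (Sq d k f) = if 2 ∣ k then Sq d (k / 2) (kdown d f) else 0 := by
  classical
  induction f using induction_sq with
  | hadd f g hf hg =>
    rw [map_add, map_add, hf, hg, map_add, ]
    split_ifs
    · rw [map_add]
    · rw [add_zero]
  | hs S g =>
    have hk : ∀ l : ℕ, Sq d l (g ^ 2) = if 2 ∣ l then (Sq d (l / 2) g) ^ 2 else 0 := by
      intro l
      rw [Sq_apply, map_pow, coeff_sq]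
      rfl
    have hS : kdown d ((∏ i ∈ S, X i) * g ^ 2) = if S = Finset.univ then g else 0 := by
      rw [mul_comm, kdown_sq_mul, kdown_prod]
      split_ifs <;> simp
    rw [hS, Sq_apply, map_mul, totalSq_prod_X, Finset.sum_mul, Polynomial.finsetSum_coeff, map_sum]
    have hterm : ∀ R ∈ S.powerset, kdown d ((Polynomial.C ((∏ i ∈ R, X i) ^ 2 * ∏ i ∈ S \ R, X i) *
        Polynomial.X ^ R.card * totalSq d (g ^ 2)).coeff k) =
        if R = ∅ ∧ S = Finset.univ then (if 2 ∣ k then Sq d (k / 2) g else 0) else 0 := by
      intro R hR
      rw [mul_assoc, Polynomial.coeff_C_mul]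
      by_cases hRS : S \ R = Finset.univ
      · have hR0 : R = ∅ := by
          rw [Finset.eq_empty_iff_forall_notMem]
          intro i hi
          have : i ∈ S \ R := by rw [hRS]; exact Finset.mem_univ i
          exact (Finset.mem_sdiff.1 this).2 hi
        subst hR0
        have hSu : S = Finset.univ := by simpa using hRS
        rw [if_pos ⟨rfl, hSu⟩]
        rw [Finset.prod_empty, one_pow, one_mul, Finset.card_empty, pow_zero, one_mul]
        have h1 := hk k
        rw [Sq_apply] at h1
        rw [h1]
        split_ifs
        · rw [mul_comm, kdown_sq_mul, kdown_prod, if_pos hRS, mul_one]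
        · rw [mul_zero, map_zero]
      · have hne : ¬ (R = ∅ ∧ S = Finset.univ) := by
          rintro ⟨rfl, rfl⟩
          exact hRS (by simp)
        rw [if_neg hne]
        by_cases hc : R.card ≤ k
        · obtain ⟨l, rfl⟩ := Nat.exists_eq_add_of_le hc
          rw [add_comm, Polynomial.coeff_X_pow_mul]
          have h1 := hk l
          rw [Sq_apply] at h1
          rw [h1]
          split_ifs
          · have : (∏ i ∈ R, X i : P d) ^ 2 * (∏ i ∈ S \ R, X i) * (Sq d (l / 2) g) ^ 2 =
                ((∏ i ∈ R, X i) * Sq d (l / 2) g) ^ 2 * ∏ i ∈ S \ R, X i := by ring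
            rw [this, kdown_sq_mul, kdown_prod, if_neg hRS, mul_zero]
          · rw [mul_zero, map_zero]
        · rw [Polynomial.coeff_X_pow_mul', if_neg hc, mul_zero, map_zero]
    rw [Finset.sum_congr rfl hterm]
    by_cases hSu : S = Finset.univ
    · rw [if_pos hSu, Finset.sum_eq_single ∅]
      · rw [if_pos ⟨rfl, hSu⟩]
      · intro R _ hR
        rw [if_neg (fun h => hR h.1)]
      · intro h
        exact absurd (Finset.empty_mem_powerset S) h
    · rw [if_neg hSu, map_zero, ite_self]
      refine Finset.sum_eq_zero (fun R _ => ?_)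
      rw [if_neg (fun h => hSu h.2)]

/-! ### Equivariance -/

theorem kdown_act (w : Matrix (Fin d) (Fin d) (ZMod 2)) (hw : w.det ≠ 0) (f : P d) :
    kdown d (act w f) = act w (kdown d f) := by
  classical
  revert f
  refine Matrix.diagonal_transvection_induction_of_det_ne_zero
    (fun w => ∀ f, kdown d (act w f) = act w (kdown d f)) w hw ?_ ?_ ?_
  · intro D hD f
    have h1 : ∀ i, D i = 1 := by
      intro i
      rw [Matrix.det_diagonal, Finset.prod_ne_zero_iff] at hD
      have h2 := hD i (Finset.mem_univ i)
      have h3 : D i = 0 ∨ D i = 1 := by generalize D i = c; revert c; decide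
      exact h3.resolve_left h2
    have h2 : Matrix.diagonal D = 1 := by
      rw [← Matrix.diagonal_one]
      congr 1
      ext i; exact h1 i
    rw [h2, act_one, act_one]
  · intro t f
    obtain ⟨i, j, hij, c⟩ := t
    have hc : c = 0 ∨ c = 1 := by revert c; decide
    rcases hc with rfl | rfl
    · have : (Matrix.TransvectionStruct.mk i j hij (0 : ZMod 2)).toMatrix = 1 := by
        simp [Matrix.TransvectionStruct.toMatrix]
      rw [this, act_one, act_one]
    · set w := (Matrix.TransvectionStruct.mk i j hij (1 : ZMod 2)).toMatrix with hwdef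
      have hwX : ∀ l, act w (X l) = if l = j then X j + X i else (X l : P d) := by
        intro l
        rw [act_X]
        have hval : ∀ k, w k l = (if k = l then 1 else 0) + (if k = i ∧ j = l then 1 else 0) := by
          intro k
          rw [hwdef, Matrix.TransvectionStruct.toMatrix, Matrix.transvection, Matrix.add_apply,
            Matrix.one_apply, Matrix.single_apply]
          congr 1
          simp [eq_comm]
        simp_rw [hval, C_add, add_mul, Finset.sum_add_distrib]
        have hs1 : ∑ k, (C (if k = l then (1 : ZMod 2) else 0) : P d) * X k = X l := by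
          rw [Finset.sum_eq_single l]
          · simp
          · intro b _ hb; rw [if_neg hb]; simp
          · intro h; exact absurd (Finset.mem_univ l) h
        rw [hs1]
        by_cases hl : l = j
        · subst hl
          rw [if_pos rfl, Finset.sum_eq_single i]
          · simp
          · intro b _ hb; rw [if_neg (fun h => hb h.1)]; simp
          · intro h; exact absurd (Finset.mem_univ i) h
        · rw [if_neg hl, Finset.sum_eq_zero, add_zero]
          intro b _
          rw [if_neg (fun h => hl h.2.symm)]; simp
      induction f using induction_sq with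
      | hadd f g hf hg => rw [map_add, map_add, hf, hg, map_add, map_add]
      | hs S g =>
        have hS : kdown d ((∏ i ∈ S, X i) * g ^ 2) = if S = Finset.univ then g else 0 := by
          rw [mul_comm, kdown_sq_mul, kdown_prod]
          split_ifs <;> simp
        have hgen : kdown d (act w (∏ i ∈ S, X i)) = if S = Finset.univ then 1 else 0 := by
          rw [map_prod]
          by_cases hjS : j ∈ S
          · rw [← Finset.mul_prod_erase S _ hjS, hwX j, if_pos rfl]
            have h3 : ∏ l ∈ S.erase j, act w (X l) = ∏ l ∈ S.erase j, (X l : P d) := by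
              refine Finset.prod_congr rfl (fun l hl => ?_)
              rw [hwX, if_neg (Finset.ne_of_mem_erase hl)]
            rw [h3, add_mul, Finset.mul_prod_erase S _ hjS, map_add, kdown_prod]
            have h4 : kdown d (X i * ∏ l ∈ S.erase j, X l) = 0 := by
              by_cases hi : i ∈ S.erase j
              · rw [← Finset.mul_prod_erase (S.erase j) _ hi, ← mul_assoc, ← pow_two,
                  kdown_sq_mul, kdown_prod, if_neg, mul_zero]
                intro h
                have : j ∈ (S.erase j).erase i := by rw [h]; exact Finset.mem_univ j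
                exact (Finset.notMem_erase j S) (Finset.mem_of_mem_erase this)
              · rw [← Finset.prod_insert hi, kdown_prod, if_neg]
                intro h
                have : j ∈ insert i (S.erase j) := by rw [h]; exact Finset.mem_univ j
                rw [Finset.mem_insert] at this
                rcases this with h' | h'
                · exact hij h'.symm
                · exact Finset.notMem_erase j S h'
            rw [h4, add_zero]
          · have h3 : ∏ l ∈ S, act w (X l) = ∏ l ∈ S, (X l : P d) := by
              refine Finset.prod_congr rfl (fun l hl => ?_)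
              rw [hwX, if_neg]
              rintro rfl; exact hjS hl
            rw [h3, kdown_prod]
        rw [hS, map_mul, map_pow, mul_comm, kdown_sq_mul, hgen]
        split_ifs <;> simp
  · intro A B _ _ hA hB f
    rw [act_mul, act_mul, hA, hB]

theorem kdown_homogeneous_ne {n : ℕ} {z : Module.Dual (ZMod 2) (P d)} (hz : z ∈ H d n)
    {t : Fin d →₀ ℕ} (ht : ∑ i, t i ≠ d + 2 * n) : z (kdown d (monomial t 1)) = 0 := by
  rw [kdown_monomial]
  split_ifs with h
  · refine hz _ (fun h' => ht ?_)
    rw [← h', Finset.mul_sum]
    have h1 : ∀ i, t i = 1 + 2 * (Finsupp.mapRange (fun a => (a - 1) / 2) rfl t) i := by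
      intro i
      rw [Finsupp.mapRange_apply]
      have := h i
      rw [Nat.odd_iff] at this
      omega
    calc ∑ i, t i = ∑ i, (1 + 2 * (Finsupp.mapRange (fun a => (a - 1) / 2) rfl t) i) :=
          Finset.sum_congr rfl (fun i _ => h1 i)
      _ = _ := by rw [Finset.sum_add_distrib]; simp
  · exact map_zero z

theorem kdown_mem_PH {n : ℕ} {z : Module.Dual (ZMod 2) (P d)} (hz : z ∈ PH d n) :
    z.comp (kdown d) ∈ PH d (d + 2 * n) := by
  refine ⟨fun t ht => kdown_homogeneous_ne hz.1 ht, fun k hk f => ?_⟩
  show z (kdown d (Sq d k f)) = 0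
  rw [kdown_Sq]
  split_ifs with h
  · exact hz.2 _ (Nat.div_pos (Nat.le_of_dvd hk h) (by norm_num)) _
  · exact map_zero z

/-! ### The final definitions -/

/-- The right action of the general linear group on the primitives:
`(z · w)(f) = z (w f)`. -/
noncomputable def actPH (d n : ℕ) (w : Matrix.GeneralLinearGroup (Fin d) (ZMod 2)) :
    PH d n →ₗ[ZMod 2] PH d n where
  toFun z := ⟨z.1.comp (act (w : Matrix (Fin d) (Fin d) (ZMod 2))).toLinearMap,
    act_mem_PH _ z.2⟩
  map_add' _ _ := rfl
  map_smul' _ _ := rfl

/-- The subspace of `PH d n` spanned by the elements `z · w - z`. -/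
noncomputable def aug (d n : ℕ) : Submodule (ZMod 2) (PH d n) :=
  Submodule.span (ZMod 2) {y | ∃ (w : Matrix.GeneralLinearGroup (Fin d) (ZMod 2)) (z : PH d n),
    y = actPH d n w z - z}

/-- The coinvariants `𝔽₂ ⊗_{GL_d} PH_n`. -/
abbrev Coinv (d n : ℕ) : Type := PH d n ⧸ aug d n

/-- Kameko's map `PH_n → PH_{d + 2n}`, the restriction of the linear map sending
`∏ a_t^(s_t)` to `∏ a_t^(2 s_t + 1)`: it is given by composition with `kdown`. -/
noncomputable def KamMap (d n : ℕ) : PH d n →ₗ[ZMod 2] PH d (d + 2 * n) where
  toFun z := ⟨z.1.comp (kdown d), kdown_mem_PH z.2⟩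
  map_add' _ _ := rfl
  map_smul' _ _ := rfl

theorem Kam_act (d n : ℕ) (w : Matrix.GeneralLinearGroup (Fin d) (ZMod 2)) (z : PH d n) :
    KamMap d n (actPH d n w z) = actPH d (d + 2 * n) w (KamMap d n z) := by
  apply Subtype.ext
  apply LinearMap.ext
  intro f
  show z.1 (act w.1 (kdown d f)) = z.1 (kdown d (act w.1 f))
  rw [kdown_act]
  have := w.isUnit
  rw [Matrix.isUnit_iff_isUnit_det] at this
  exact this.ne_zero

theorem aug_le (d n : ℕ) : aug d n ≤ (aug d (d + 2 * n)).comap (KamMap d n) := by
  unfold aug
  rw [Submodule.span_le]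
  rintro _ ⟨w, z, rfl⟩
  show KamMap d n (actPH d n w z - z) ∈ aug d (d + 2 * n)
  have h : KamMap d n (actPH d n w z - z) =
      actPH d (d + 2 * n) w (KamMap d n z) - KamMap d n z := by
    rw [LinearMap.map_sub (KamMap d n), Kam_act]
  rw [h]
  exact Submodule.subset_span ⟨w, KamMap d n z, rfl⟩

/-- Kameko's squaring operation on the coinvariants. -/
noncomputable def SqTilde (d n : ℕ) : Coinv d n →ₗ[ZMod 2] Coinv d (d + 2 * n) :=
  Submodule.mapQ (aug d n) (aug d (d + 2 * n)) (KamMap d n) (aug_le d n)

end Pool.Agent.TH542.Kam
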