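import Pool.Agent.TH542.Kam.Down

/-!
# An invariant class modulo hits in degree `2^s - 1`
-/

set_option autoImplicit false

namespace Pool.Agent.TH542.Kam

open MvPolynomial

variable {d : ℕ}

/-- The hit polynomials. -/
noncomputable def Hit (d : ℕ) : Submodule (ZMod 2) (P d) :=
  Submodule.span (ZMod 2) {y | ∃ k, 0 < k ∧ ∃ f, y = Sq d k f}

theorem Sq_mem_Hit {k : ℕ} (hk : 0 < k) (f : P d) : Sq d k f ∈ Hit d :=
  Submodule.subset_span ⟨k, hk, f, rfl⟩

theorem PH_Hit {n : ℕ} {z : Module.Dual (ZMod 2) (P d)} (hz : z ∈ PH d n) {f : P d}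
    (hf : f ∈ Hit d) : z f = 0 := by
  unfold Hit at hf
  induction hf using Submodule.span_induction with
  | mem x hx => obtain ⟨k, hk, g, rfl⟩ := hx; exact hz.2 k hk g
  | zero => exact map_zero z
  | add x y _ _ hx hy => rw [map_add, hx, hy, add_zero]
  | smul c x _ hx => rw [map_smul, hx, smul_zero]

theorem char_two_add_self (a : P d) : a + a = 0 := CharTwo.add_self_eq_zero a

theorem Lin_mul_sq {a : P d} (ha : Lin a) {h : P d} (hh : h ∈ Hit d) : a * h ^ 2 ∈ Hit d := by
  unfold Hit at hh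
  induction hh using Submodule.span_induction with
  | mem x hx =>
    obtain ⟨k, hk, g, rfl⟩ := hx
    have : a * (Sq d k g) ^ 2 = Sq d (2 * k) (a * g ^ 2) := by
      rw [Sq_apply (2 * k), map_mul, map_pow, ha, add_mul, Polynomial.coeff_add,
        Polynomial.coeff_C_mul, coeff_sq, if_pos (Dvd.intro k rfl), mul_assoc,
        Polynomial.coeff_C_mul, Polynomial.X_mul]
      obtain ⟨l, rfl⟩ : ∃ l, k = l + 1 := ⟨k - 1, by omega⟩
      have h1 : 2 * (l + 1) = (2 * l + 1) + 1 := by ring
      have h2 : 2 * (l + 1) / 2 = l + 1 := by omega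
      rw [h2, h1, Polynomial.coeff_mul_X, coeff_sq, if_neg (by omega), mul_zero, add_zero]
      rfl
    rw [this]
    exact Sq_mem_Hit (by omega) _
  | zero => simp
  | add x y _ _ hx hy =>
    rw [add_sq', mul_add]
    exact Submodule.add_mem _ hx hy
  | smul c x _ hx =>
    have h : c = 0 ∨ c = 1 := by revert c; decide
    rcases h with rfl | rfl
    · simp
    · simpa using hx

theorem Sq1_mul (f g : P d) : Sq d 1 (f * g) = Sq d 1 f * g + f * Sq d 1 g := by
  have h0 : ∀ f : P d, (totalSq d f).coeff 0 = f := by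
    intro f
    have h : (Polynomial.constantCoeff.comp (totalSq d : P d →+* Polynomial (P d))) =
        RingHom.id (P d) := by
      apply MvPolynomial.ringHom_ext
      · intro r
        simp [totalSq, Polynomial.algebraMap_apply, algebraMap_eq]
      · intro i
        simp [totalSq]
    exact congrArg (fun g : P d →+* P d => g f) h
  rw [Sq_apply, Sq_apply, Sq_apply, map_mul, Polynomial.coeff_mul,
    Finset.Nat.antidiagonal_succ]
  simp [h0]
  ring

theorem Sq1_sq (f : P d) : Sq d 1 (f ^ 2) = 0 := by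
  rw [pow_two, Sq1_mul, mul_comm, char_two_add_self]

theorem Sq1_Lin {a : P d} (ha : Lin a) : Sq d 1 a = a ^ 2 := by
  rw [Sq_apply, ha, Polynomial.coeff_add, Polynomial.coeff_C_succ, Polynomial.coeff_C_mul,
    Polynomial.coeff_X_one, mul_one, zero_add]

theorem z2 (c : ZMod 2) : c = 0 ∨ c = 1 := by revert c; decide

theorem hit1 {a b : P d} (ha : Lin a) (hb : Lin b) (W : P d) :
    a ^ 2 * b * W ^ 2 + a * b ^ 2 * W ^ 2 ∈ Hit d := by
  have : a ^ 2 * b * W ^ 2 + a * b ^ 2 * W ^ 2 = Sq d 1 (a * b * W ^ 2) := by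
    rw [Sq1_mul, Sq1_mul, Sq1_sq, Sq1_Lin ha, Sq1_Lin hb]
    ring
  rw [this]
  exact Sq_mem_Hit one_pos _

/-- `f ≡ g` modulo hits, written as `f + g ∈ Hit`. -/
def Eqv (f g : P d) : Prop := f + g ∈ Hit d

theorem Eqv.refl (f : P d) : Eqv f f := by
  unfold Eqv; rw [char_two_add_self]; exact Submodule.zero_mem _

theorem Eqv.symm {f g : P d} (h : Eqv f g) : Eqv g f := by
  unfold Eqv at *; rwa [add_comm]

theorem Eqv.trans {f g h : P d} (h1 : Eqv f g) (h2 : Eqv g h) : Eqv f h := by
  unfold Eqv at *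
  have := Submodule.add_mem _ h1 h2
  have e : f + g + (g + h) = f + h + (g + g) := by ring
  rwa [e, char_two_add_self, add_zero] at this

theorem Eqv.add {f g f' g' : P d} (h1 : Eqv f g) (h2 : Eqv f' g') : Eqv (f + f') (g + g') := by
  unfold Eqv at *
  have := Submodule.add_mem _ h1 h2
  have e : f + g + (f' + g') = f + f' + (g + g') := by ring
  rwa [e] at this

theorem Eqv.mul_sq {a f g : P d} (ha : Lin a) (h : Eqv f g) : Eqv (a * f ^ 2) (a * g ^ 2) := by
  unfold Eqv at *
  rw [← mul_add, ← add_sq']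
  exact Lin_mul_sq ha h

theorem Eqv.of_eq {f g : P d} (h : f = g) : Eqv f g := h ▸ Eqv.refl f

theorem pow_odd_succ (a : P d) (s : ℕ) : a ^ (2 ^ (s + 1) - 1) = a * (a ^ (2 ^ s - 1)) ^ 2 := by
  rw [← pow_mul, ← pow_succ']
  congr 1
  have : 0 < 2 ^ s := by positivity
  rw [pow_succ]
  omega

/-- `a b^(2(2^s-1)) ≡ b a^(2(2^s-1))` for `s ≥ 1`. -/
theorem swapE {a b : P d} (ha : Lin a) (hb : Lin b) (s : ℕ) :
    Eqv (a * (b ^ (2 ^ (s + 1) - 1)) ^ 2) (b * (a ^ (2 ^ (s + 1) - 1)) ^ 2) := by
  induction s with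
  | zero =>
    have := hit1 ha hb 1
    unfold Eqv
    have e : a * (b ^ (2 ^ (0 + 1) - 1)) ^ 2 + b * (a ^ (2 ^ (0 + 1) - 1)) ^ 2 =
        a ^ 2 * b * 1 ^ 2 + a * b ^ 2 * 1 ^ 2 := by
      norm_num; ring
    rw [e]; exact this
  | succ s ih =>
    set A := a ^ (2 ^ s - 1) with hA
    set B := b ^ (2 ^ (s + 1) - 1) with hB
    -- step 1
    have e1 : Eqv (a * (b ^ (2 ^ (s + 1 + 1) - 1)) ^ 2) (b * (a * B ^ 2) ^ 2) := by
      rw [pow_odd_succ b (s + 1), ← hB]
      have := hit1 ha hb (B ^ 2)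
      unfold Eqv
      have e : a * (b * B ^ 2) ^ 2 + b * (a * B ^ 2) ^ 2 =
        a ^ 2 * b * (B ^ 2) ^ 2 + a * b ^ 2 * (B ^ 2) ^ 2 := by ring
      rw [e]; exact this
    have e2 : Eqv (b * (a * B ^ 2) ^ 2) (b * (b * (a ^ (2 ^ (s + 1) - 1)) ^ 2) ^ 2) :=
      Eqv.mul_sq hb ih
    have e3 : Eqv (b * (b * (a ^ (2 ^ (s + 1) - 1)) ^ 2) ^ 2) (a ^ 3 * b ^ 4 * A ^ 8) := by
      rw [pow_odd_succ a s, ← hA]
      have := hit1 ha hb (a * b * A ^ 4)
      unfold Eqv
      have e : b * (b * (a * A ^ 2) ^ 2) ^ 2 + a ^ 3 * b ^ 4 * A ^ 8 =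
        a ^ 2 * b * (a * b * A ^ 4) ^ 2 + a * b ^ 2 * (a * b * A ^ 4) ^ 2 := by ring
      rw [e]; exact this
    have e4 : Eqv (a ^ 3 * b ^ 4 * A ^ 8) (a ^ 5 * b ^ 2 * A ^ 8) := by
      have h := hit1 ha hb (A ^ 2)
      have h' : Eqv (a * b ^ 2 * (A ^ 2) ^ 2) (a ^ 2 * b * (A ^ 2) ^ 2) := by
        unfold Eqv; rwa [add_comm]
      have := Eqv.mul_sq ha h'
      refine (Eqv.of_eq ?_).trans (this.trans (Eqv.of_eq ?_)) <;> ring
    have e5 : Eqv (a ^ 5 * b ^ 2 * A ^ 8) (b * (a ^ (2 ^ (s + 1 + 1) - 1)) ^ 2) := by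
      rw [pow_odd_succ a (s + 1), pow_odd_succ a s, ← hA]
      have := hit1 ha hb (a ^ 2 * A ^ 4)
      unfold Eqv
      have e : a ^ 5 * b ^ 2 * A ^ 8 + b * (a * (a * A ^ 2) ^ 2) ^ 2 =
        a ^ 2 * b * (a ^ 2 * A ^ 4) ^ 2 + a * b ^ 2 * (a ^ 2 * A ^ 4) ^ 2 := by ring
      rw [e]; exact this
    exact e1.trans (e2.trans (e3.trans (e4.trans e5)))

/-- `(a+b)^(2^s-1) ≡ a^(2^s-1) + b^(2^s-1)` for `s ≥ 1`. -/
theorem addE {a b : P d} (ha : Lin a) (hb : Lin b) (s : ℕ) :
    Eqv ((a + b) ^ (2 ^ (s + 1) - 1)) (a ^ (2 ^ (s + 1) - 1) + b ^ (2 ^ (s + 1) - 1)) := by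
  induction s with
  | zero => norm_num; exact Eqv.refl _
  | succ s ih =>
    rw [pow_odd_succ (a + b), pow_odd_succ a, pow_odd_succ b]
    have h1 := Eqv.mul_sq (Lin_add ha hb) ih
    refine h1.trans ?_
    have h2 := swapE ha hb s
    unfold Eqv at *
    have e : (a + b) * (a ^ (2 ^ (s + 1) - 1) + b ^ (2 ^ (s + 1) - 1)) ^ 2 +
        (a * (a ^ (2 ^ (s + 1) - 1)) ^ 2 + b * (b ^ (2 ^ (s + 1) - 1)) ^ 2) =
        a * (b ^ (2 ^ (s + 1) - 1)) ^ 2 + b * (a ^ (2 ^ (s + 1) - 1)) ^ 2 := by
      rw [add_sq']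
      have h := char_two_add_self (a * (a ^ (2 ^ (s + 1) - 1)) ^ 2)
      have h' := char_two_add_self (b * (b ^ (2 ^ (s + 1) - 1)) ^ 2)
      linear_combination h + h'
    rw [e]; exact h2

/-- The invariant polynomial. -/
def F {R : Type*} [CommRing R] : ℕ → List R → R
  | _, [] => 0
  | s, a :: l => F s l + a ^ (2 ^ s - 1) + a * (F (s - 1) l) ^ 2

theorem F_map {R S : Type*} [CommRing R] [CommRing S] (φ : R →+* S) (l : List R) :
    ∀ s, φ (F s l) = F s (l.map φ) := by
  induction l with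
  | nil => intro s; exact map_zero φ
  | cons a l ih =>
    intro s
    show φ (F s l + a ^ (2 ^ s - 1) + a * (F (s - 1) l) ^ 2) = _
    rw [map_add, map_add, map_mul, map_pow, map_pow, ih, ih]
    rfl

theorem F_perm {l l' : List (P d)} (h : l.Perm l') : ∀ s, l.length ≤ s → (∀ a ∈ l, Lin a) →
    Eqv (F s l) (F s l') := by
  induction h with
  | nil => intro s _ _; exact Eqv.refl _
  | cons a h ih =>
    intro s hs hl
    rw [List.length_cons] at hs
    have h1 := ih s (by omega) (fun x hx => hl x (List.mem_cons_of_mem _ hx))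
    have h2 := ih (s - 1) (by omega) (fun x hx => hl x (List.mem_cons_of_mem _ hx))
    exact (h1.add (Eqv.refl _)).add (Eqv.mul_sq (hl a List.mem_cons_self) h2)
  | swap a b l =>
    intro s hs hl
    rw [List.length_cons, List.length_cons] at hs
    obtain ⟨r, rfl⟩ : ∃ r, s = r + 2 := ⟨s - 2, by omega⟩
    have ha : Lin a := hl a (by simp)
    have hb : Lin b := hl b (by simp)
    have h1 := swapE ha hb r
    have h2 := hit1 ha hb ((F r l) ^ 2)
    unfold Eqv at *
    have h3 := Submodule.add_mem _ h1 h2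
    have e : F (r + 2) (b :: a :: l) + F (r + 2) (a :: b :: l) =
        a * (b ^ (2 ^ (r + 1) - 1)) ^ 2 + b * (a ^ (2 ^ (r + 1) - 1)) ^ 2 +
        (a ^ 2 * b * ((F r l) ^ 2) ^ 2 + a * b ^ 2 * ((F r l) ^ 2) ^ 2) := by
      simp only [F, add_tsub_cancel_right, show r + 2 - 1 = r + 1 from rfl]
      rw [add_sq', add_sq', add_sq', add_sq']
      have k1 := char_two_add_self (F (r + 2) l)
      have k2 := char_two_add_self (a ^ (2 ^ (r + 2) - 1))
      have k3 := char_two_add_self (b ^ (2 ^ (r + 2) - 1))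
      have k4 := char_two_add_self (a * (F (r + 1) l) ^ 2)
      have k5 := char_two_add_self (b * (F (r + 1) l) ^ 2)
      linear_combination k1 + k2 + k3 + k4 + k5
    rw [e]; exact h3
  | trans h1 h2 ih1 ih2 =>
    intro s hs hl
    exact (ih1 s hs hl).trans (ih2 s (by rw [← h1.length_eq]; exact hs)
      (fun a ha => hl a (h1.mem_iff.2 ha)))

theorem F_last {b : P d} (hb : Lin b) (l : List (P d)) : ∀ r, l.length + 1 ≤ r →
    (∀ a ∈ l, Lin a) → Eqv (b * (F r (l ++ [b])) ^ 2) (b ^ (2 ^ (r + 1) - 1)) := by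
  induction l with
  | nil =>
    intro r _ _
    refine Eqv.of_eq ?_
    rw [pow_odd_succ]
    simp [F]
  | cons c l ih =>
    intro r hr hl
    rw [List.length_cons] at hr
    obtain ⟨q, rfl⟩ : ∃ q, r = q + 1 := ⟨r - 1, by omega⟩
    have hc : Lin c := hl c List.mem_cons_self
    have hl' : ∀ a ∈ l, Lin a := fun x hx => hl x (List.mem_cons_of_mem _ hx)
    have h1 := ih (q + 1) (by omega) hl'
    have h2 := Eqv.mul_sq hc (ih q (by omega) hl')
    have h3 := swapE hb hc q
    have h4 := hit1 hb hc ((F q (l ++ [b])) ^ 2)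
    unfold Eqv at *
    have h5 := Submodule.add_mem _ (Submodule.add_mem _ h1 h2) (Submodule.add_mem _ h3 h4)
    have e : b * (F (q + 1) (c :: l ++ [b])) ^ 2 + b ^ (2 ^ (q + 1 + 1) - 1) =
        b * (F (q + 1) (l ++ [b])) ^ 2 + b ^ (2 ^ (q + 1 + 1) - 1) +
        (c * (b * (F q (l ++ [b])) ^ 2) ^ 2 + c * (b ^ (2 ^ (q + 1) - 1)) ^ 2) +
        (b * (c ^ (2 ^ (q + 1) - 1)) ^ 2 + c * (b ^ (2 ^ (q + 1) - 1)) ^ 2 +
        (b ^ 2 * c * ((F q (l ++ [b])) ^ 2) ^ 2 + b * c ^ 2 * ((F q (l ++ [b])) ^ 2) ^ 2)) := by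
      have hF : F (q + 1) (c :: l ++ [b]) = F (q + 1) (l ++ [b]) + c ^ (2 ^ (q + 1) - 1) +
        c * (F q (l ++ [b])) ^ 2 := rfl
      rw [hF, add_sq', add_sq']
      have k1 := char_two_add_self (c * (b ^ (2 ^ (q + 1) - 1)) ^ 2)
      have k2 := char_two_add_self (b ^ 2 * c * ((F q (l ++ [b])) ^ 2) ^ 2)
      linear_combination - k1 - k2
    rw [e]; exact h5

theorem F_transvec {a b : P d} (ha : Lin a) (hb : Lin b) (l : List (P d)) (s : ℕ)
    (hs : l.length + 2 ≤ s) (hl : ∀ a ∈ l, Lin a) :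
    Eqv (F s ((a + b) :: b :: l)) (F s (a :: b :: l)) := by
  obtain ⟨r, rfl⟩ : ∃ r, s = r + 1 := ⟨s - 1, by omega⟩
  have h1 := addE ha hb r
  have hp : (b :: l).Perm (l ++ [b]) := by
    have := List.perm_append_comm (l₁ := [b]) (l₂ := l)
    simpa using this
  have h2 := F_perm hp r (by simp; omega) (by
    intro x hx
    rcases List.mem_cons.1 hx with rfl | hx
    · exact hb
    · exact hl x hx)
  have h3 := Eqv.mul_sq hb h2
  have h4 := F_last hb l r (by omega) hl
  have h5 := h3.trans h4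
  unfold Eqv at *
  have h6 := Submodule.add_mem _ h1 h5
  have e : F (r + 1) ((a + b) :: b :: l) + F (r + 1) (a :: b :: l) =
      (a + b) ^ (2 ^ (r + 1) - 1) + (a ^ (2 ^ (r + 1) - 1) + b ^ (2 ^ (r + 1) - 1)) +
      (b * (F r (b :: l)) ^ 2 + b ^ (2 ^ (r + 1) - 1)) := by
    have hF1 : F (r + 1) ((a + b) :: b :: l) = F (r + 1) (b :: l) + (a + b) ^ (2 ^ (r + 1) - 1) +
      (a + b) * (F r (b :: l)) ^ 2 := rfl
    have hF2 : F (r + 1) (a :: b :: l) = F (r + 1) (b :: l) + a ^ (2 ^ (r + 1) - 1) +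
      a * (F r (b :: l)) ^ 2 := rfl
    rw [hF1, hF2]
    have k1 := char_two_add_self (F (r + 1) (b :: l))
    have k2 := char_two_add_self (b ^ (2 ^ (r + 1) - 1))
    have k3 := char_two_add_self (a * (F r (b :: l)) ^ 2)
    linear_combination k1 - k2 + k3
  rw [e]; exact h6

/-- The invariance of `F s [y_1, …, y_d]` under a change of the linear forms `y_i`. -/
theorem F_matrix (w : Matrix (Fin d) (Fin d) (ZMod 2)) (hw : w.det ≠ 0) (s : ℕ) (hs : d ≤ s)
    (y : Fin d → P d) (hy : ∀ i, Lin (y i)) :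
    Eqv (F s (List.ofFn (fun j => ∑ i, C (w i j) * y i))) (F s (List.ofFn y)) := by
  classical
  revert y
  refine Matrix.diagonal_transvection_induction_of_det_ne_zero
    (fun w => ∀ y : Fin d → P d, (∀ i, Lin (y i)) →
      Eqv (F s (List.ofFn (fun j => ∑ i, C (w i j) * y i))) (F s (List.ofFn y))) w hw ?_ ?_ ?_
  · intro D hD y hy
    have h1 : ∀ i, D i = 1 := by
      intro i
      rw [Matrix.det_diagonal, Finset.prod_ne_zero_iff] at hD
      have h2 := hD i (Finset.mem_univ i)
      have h3 : D i = 0 ∨ D i = 1 := by generalize D i = c; revert c; decide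
      exact h3.resolve_left h2
    have h2 : (fun j => ∑ i, C (Matrix.diagonal D i j) * y i) = y := by
      ext1 j
      rw [Finset.sum_eq_single j]
      · rw [Matrix.diagonal_apply_eq, h1]; simp
      · intro b _ hb
        rw [Matrix.diagonal_apply_ne _ hb]; simp
      · intro h; exact absurd (Finset.mem_univ j) h
    rw [h2]; exact Eqv.refl _
  · intro t y hy
    obtain ⟨i, j, hij, c⟩ := t
    have hval : ∀ k l, (Matrix.TransvectionStruct.mk i j hij c).toMatrix k l =
        (if k = l then 1 else 0) + (if k = i ∧ j = l then c else 0) := by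
      intro k l
      rw [Matrix.TransvectionStruct.toMatrix, Matrix.transvection, Matrix.add_apply,
        Matrix.one_apply, Matrix.single_apply]
      congr 1
      simp [eq_comm]
    have hy' : (fun l => ∑ k, C ((Matrix.TransvectionStruct.mk i j hij c).toMatrix k l) * y k) =
        Function.update y j (y j + C c * y i) := by
      ext1 l
      simp_rw [hval, C_add, add_mul, Finset.sum_add_distrib]
      have hs1 : ∑ k, (C (if k = l then (1 : ZMod 2) else 0) : P d) * y k = y l := by
        rw [Finset.sum_eq_single l]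
        · simp
        · intro b _ hb; rw [if_neg hb]; simp
        · intro h; exact absurd (Finset.mem_univ l) h
      rw [hs1]
      by_cases hl : l = j
      · subst hl
        rw [Function.update_self, Finset.sum_eq_single i]
        · simp
        · intro b _ hb; rw [if_neg (fun h => hb h.1)]; simp
        · intro h; exact absurd (Finset.mem_univ i) h
      · rw [Function.update_of_ne hl, Finset.sum_eq_zero, add_zero]
        intro b _
        rw [if_neg (fun h => hl h.2.symm)]; simp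
    rw [hy']
    rcases z2 c with rfl | rfl
    · have : y j + C (0 : ZMod 2) * y i = y j := by simp
      rw [this, Function.update_eq_self]; exact Eqv.refl _
    · have h1 : y j + C (1 : ZMod 2) * y i = y j + y i := by simp
      rw [h1]
      set rest := ((List.finRange d).erase j).erase i with hrest
      have hperm : (List.finRange d).Perm (j :: i :: rest) := by
        refine (List.perm_cons_erase (List.mem_finRange j)).trans (List.Perm.cons j ?_)
        exact List.perm_cons_erase ((List.mem_erase_of_ne hij).2 (List.mem_finRange i))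
      have hjr : j ∉ rest := by
        intro h
        exact (List.nodup_finRange d).not_mem_erase (List.mem_of_mem_erase h)
      have hlen : rest.length + 2 ≤ s := by
        have := hperm.length_eq
        simp at this
        omega
      have p1 : (List.ofFn (Function.update y j (y j + y i))).Perm
          ((y j + y i) :: y i :: rest.map y) := by
        rw [List.ofFn_eq_map]
        refine (hperm.map _).trans (List.Perm.of_eq ?_)
        rw [List.map_cons, List.map_cons, Function.update_self, Function.update_of_ne hij]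
        congr 2
        refine List.map_congr_left (fun k hk => ?_)
        rw [Function.update_of_ne]
        rintro rfl; exact hjr hk
      have p2 : (List.ofFn y).Perm (y j :: y i :: rest.map y) := by
        rw [List.ofFn_eq_map]
        exact (hperm.map _).trans (List.Perm.of_eq (by simp))
      have hyup : ∀ a ∈ List.ofFn (Function.update y j (y j + y i)), Lin a := by
        intro a ha
        rw [List.mem_ofFn] at ha
        obtain ⟨k, rfl⟩ := ha
        by_cases hk : k = j
        · subst hk; rw [Function.update_self]; exact Lin_add (hy _) (hy _)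
        · rw [Function.update_of_ne hk]; exact hy _
      have hyall : ∀ a ∈ List.ofFn y, Lin a := by
        intro a ha
        rw [List.mem_ofFn] at ha
        obtain ⟨k, rfl⟩ := ha
        exact hy k
      refine (F_perm p1 s (by simpa using hs) hyup).trans ?_
      refine (F_transvec (hy j) (hy i) (rest.map y) s (by simpa using hlen) ?_).trans ?_
      · intro a ha
        obtain ⟨k, _, rfl⟩ := List.mem_map.1 ha
        exact hy k
      · exact (F_perm p2 s (by simpa using hs) hyall).symm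
  · intro A B _ _ hA hB y hy
    have h1 : (fun j => ∑ i, C ((A * B) i j) * y i) =
        (fun j => ∑ i, C (B i j) * (fun l => ∑ k, C (A k l) * y k) i) := by
      ext1 j
      simp only [Finset.mul_sum]
      rw [Finset.sum_comm]
      refine Finset.sum_congr rfl (fun k _ => ?_)
      rw [Matrix.mul_apply, map_sum, Finset.sum_mul]
      refine Finset.sum_congr rfl (fun i _ => ?_)
      rw [C_mul]; ring
    rw [h1]
    refine (hB _ (fun l => ?_)).trans (hA y hy)
    exact Lin_sum _ _ (fun k _ => Lin_C_mul _ (hy k))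

/-- The invariant polynomial in `P d`. -/
noncomputable def FX (d s : ℕ) : P d := F s (List.ofFn (fun i : Fin d => (X i : P d)))

theorem act_FX (s : ℕ) (hs : d ≤ s) (w : Matrix (Fin d) (Fin d) (ZMod 2)) (hw : w.det ≠ 0) :
    act w (FX d s) + FX d s ∈ Hit d := by
  unfold FX
  have h1 : act w (F s (List.ofFn (fun i : Fin d => (X i : P d)))) =
      F s (List.ofFn (fun j => ∑ i, C (w i j) * X i)) := by
    have := F_map (act w : P d →+* P d) (List.ofFn (fun i : Fin d => (X i : P d))) s
    refine this.trans ?_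
    rw [List.map_ofFn]
    congr 2
    ext1 j
    exact act_X w j
  rw [h1]
  exact F_matrix w hw s hs _ Lin_X

end Pool.Agent.TH542.Kam
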