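import Pool.Agent.TH542.Kam.Inv

/-!
# Kameko's operation kills the classes of spikes
-/

set_option autoImplicit false

namespace Pool.Agent.TH542.Kam

open MvPolynomial

variable {d : ℕ}

/-- The functional `coefficient of x^e`. -/
noncomputable def cf (e : Fin d →₀ ℕ) : Module.Dual (ZMod 2) (P d) where
  toFun f := f.coeff e
  map_add' _ _ := coeff_add _ _ _
  map_smul' _ _ := coeff_smul _ _ _

theorem cf_apply (e : Fin d →₀ ℕ) (f : P d) : cf e f = f.coeff e := rfl

theorem cf_mem_H {e : Fin d →₀ ℕ} {n : ℕ} (h : ∑ i, e i = n) : cf e ∈ H d n := by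
  classical
  intro s hs
  rw [cf_apply, coeff_monomial, if_neg]
  rintro rfl
  exact hs h

theorem choose_even : ∀ (k t j : ℕ), t + j = 2 ^ k - 1 → 0 < j → Even (t.choose j) := by
  intro k
  induction k with
  | zero => intro t j h hj; simp at h; omega
  | succ k ih =>
    intro t j h hj
    have hp : 0 < 2 ^ k := by positivity
    rw [pow_succ] at h
    have hl := @Choose.choose_modEq_choose_mod_mul_choose_div_nat t j 2 _
    rw [Nat.even_iff]
    rw [hl]
    rcases Nat.mod_two_eq_zero_or_one j with h0 | h1
    · have ht : t % 2 = 1 := by omega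
      have h2 : t / 2 + j / 2 = 2 ^ k - 1 := by omega
      have h3 := ih (t / 2) (j / 2) h2 (by omega)
      rw [Nat.even_iff] at h3
      rw [Nat.mul_mod, h3]
      simp
    · have ht : t % 2 = 0 := by omega
      rw [ht, h1]
      simp

/-- `e` is a spike. -/
def Spike (e : Fin d →₀ ℕ) : Prop := ∀ i, ∃ k, e i = 2 ^ k - 1

theorem monomial_one_eq (t : Fin d →₀ ℕ) : (monomial t 1 : P d) = ∏ i, X i ^ t i := by
  rw [monomial_eq, C_1, one_mul, Finsupp.prod_fintype _ _ (fun i => pow_zero _)]

theorem totalSq_monomial (t : Fin d →₀ ℕ) : totalSq d (monomial t 1) =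
    ∑ J ∈ Fintype.piFinset (fun i => Finset.range (t i + 1)),
      Polynomial.C (∏ i, X i ^ (t i + J i)) * Polynomial.X ^ (∑ i, J i) *
        ((∏ i, (t i).choose (J i) : ℕ) : Polynomial (P d)) := by
  classical
  rw [monomial_one_eq, map_prod]
  have h : ∀ i, totalSq d (X i ^ t i) = ∑ m ∈ Finset.range (t i + 1),
      Polynomial.C (X i ^ (t i + m)) * Polynomial.X ^ m *
        (((t i).choose m : ℕ) : Polynomial (P d)) := by
    intro i
    rw [map_pow, Lin_X i, add_comm, add_pow]
    refine Finset.sum_congr rfl (fun m hm => ?_)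
    rw [Finset.mem_range] at hm
    congr 1
    rw [mul_pow, ← Polynomial.C_pow, ← Polynomial.C_pow, mul_assoc, mul_comm (Polynomial.X ^ m),
      ← mul_assoc, ← Polynomial.C_mul]
    congr 2
    rw [← pow_mul, ← pow_add]
    congr 1
    omega
  rw [Finset.prod_congr rfl (fun i _ => h i), Finset.prod_univ_sum]
  refine Finset.sum_congr rfl (fun J _ => ?_)
  rw [Finset.prod_mul_distrib, Finset.prod_mul_distrib, ← map_prod, Finset.prod_pow_eq_pow_sum,
    Nat.cast_prod]

theorem cf_Sq {e : Fin d →₀ ℕ} (he : Spike e) {k : ℕ} (hk : 0 < k) (f : P d) :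
    cf e (Sq d k f) = 0 := by
  classical
  have h : (cf e).comp (Sq d k) = 0 := by
    refine (basisMonomials (Fin d) (ZMod 2)).ext (fun t => ?_)
    rw [coe_basisMonomials]
    show cf e (Sq d k (monomial t 1)) = 0
    rw [Sq_apply, totalSq_monomial, Polynomial.finsetSum_coeff, map_sum]
    refine Finset.sum_eq_zero (fun J _ => ?_)
    have h1 : (Polynomial.C (∏ i, X i ^ (t i + J i) : P d) * Polynomial.X ^ (∑ i, J i) *
        ((∏ i, (t i).choose (J i) : ℕ) : Polynomial (P d))).coeff k =
        (if k = ∑ i, J i then (∏ i, X i ^ (t i + J i) : P d) else 0) *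
          ((∏ i, (t i).choose (J i) : ℕ) : P d) := by
      rw [← Polynomial.C_eq_natCast, Polynomial.coeff_mul_C, Polynomial.coeff_C_mul_X_pow]
    rw [h1]
    split_ifs with hkJ
    · by_cases hte : ∀ i, t i + J i = e i
      · have hJ : ∃ i ∈ Finset.univ, 0 < J i := by
          by_contra hc
          push Not at hc
          have : ∑ i, J i = 0 := Finset.sum_eq_zero (fun i hi => by
            have := hc i hi; omega)
          omega
        obtain ⟨i, _, hi⟩ := hJ
        obtain ⟨r, hr⟩ := he i
        have hev := choose_even r (t i) (J i) (by rw [hte i, hr]) hi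
        have hev2 : Even (∏ i, (t i).choose (J i)) :=
          (even_iff_two_dvd.1 hev).trans (Finset.dvd_prod_of_mem _ (Finset.mem_univ i))
            |> even_iff_two_dvd.2
        have : ((∏ i, (t i).choose (J i) : ℕ) : P d) = 0 := by
          obtain ⟨c, hc⟩ := hev2
          rw [hc, Nat.cast_add, char_two_add_self]
        rw [this, mul_zero, map_zero]
      · have h2 : (∏ i, X i ^ (t i + J i) : P d) =
            monomial (Finsupp.equivFunOnFinite.symm (fun i => t i + J i)) 1 := by
          rw [monomial_one_eq]
          rfl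
        rw [h2, cf_apply, ← nsmul_eq_mul', coeff_smul, coeff_monomial, if_neg, smul_zero]
        intro h3
        apply hte
        intro i
        rw [← h3]
        rfl
    · rw [zero_mul, map_zero]
  exact congrArg (fun g : P d →ₗ[ZMod 2] ZMod 2 => g f) h

theorem cf_mem_PH {e : Fin d →₀ ℕ} (he : Spike e) {n : ℕ} (h : ∑ i, e i = n) : cf e ∈ PH d n :=
  ⟨cf_mem_H h, fun _ hk f => cf_Sq he hk f⟩

/-- The coefficient of `x^e` in `κ f` is the coefficient of `x^(2e+1)` in `f`. -/
theorem cf_kdown (e e' : Fin d →₀ ℕ) (h : ∀ i, e' i = 2 * e i + 1) :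
    (cf e).comp (kdown d) = cf e' := by
  classical
  refine (basisMonomials (Fin d) (ZMod 2)).ext (fun t => ?_)
  rw [coe_basisMonomials]
  show cf e (kdown d (monomial t 1)) = cf e' (monomial t 1)
  rw [kdown_monomial, cf_apply, cf_apply, coeff_monomial]
  by_cases ht : t = e'
  · subst ht
    rw [if_pos rfl, if_pos (fun i => ⟨e i, h i⟩), coeff_monomial, if_pos]
    ext i
    rw [Finsupp.mapRange_apply, h i]
    omega
  · rw [if_neg ht]
    split_ifs with hodd
    · rw [coeff_monomial, if_neg]
      intro h'
      apply ht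
      ext i
      rw [h i, ← h', Finsupp.mapRange_apply]
      have := hodd i
      rw [Nat.odd_iff] at this
      omega
    · rfl

/-- The transvection `x_j ↦ x_j + x_i`, as an element of the general linear group. -/
noncomputable def tv (i j : Fin d) (hij : i ≠ j) :
    Matrix.GeneralLinearGroup (Fin d) (ZMod 2) :=
  Matrix.GeneralLinearGroup.mkOfDetNeZero (Matrix.transvection i j (1 : ZMod 2)) (by
    rw [Matrix.det_transvection_of_ne i j hij]; exact one_ne_zero)

theorem act_tv (i j : Fin d) (hij : i ≠ j) (l : Fin d) :
    act (tv i j hij).1 (X l) = if l = j then X j + X i else (X l : P d) := by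
  classical
  have hval : ∀ k l, (tv i j hij).1 k l =
      (if k = l then 1 else 0) + (if k = i ∧ j = l then 1 else 0) := by
    intro k l
    show Matrix.transvection i j (1 : ZMod 2) k l = _
    rw [Matrix.transvection, Matrix.add_apply, Matrix.one_apply, Matrix.single_apply]
    congr 1
    simp [eq_comm]
  rw [act_X]
  simp_rw [hval, C_add, add_mul, Finset.sum_add_distrib]
  have hs1 : ∑ k, (C (if k = l then (1 : ZMod 2) else 0) : P d) * X k = X l := by
    rw [Finset.sum_eq_single l]
    · simp
    · intro b _ hb; rw [if_neg hb]; simp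
    · intro h; exact absurd (Finset.mem_univ l) h
  rw [hs1]
  by_cases hl : l = j
  · subst hl
    rw [if_pos rfl, Finset.sum_eq_single i]
    · simp
    · intro b _ hb; rw [if_neg (fun h => hb h.1)]; simp
    · intro h; exact absurd (Finset.mem_univ i) h
  · rw [if_neg hl, Finset.sum_eq_zero, add_zero]
    intro b _
    rw [if_neg (fun h => hl h.2.symm)]; simp

/-- The action of a transvection on a coefficient functional. -/
theorem cf_tv (i j : Fin d) (hij : i ≠ j) (e : Fin d →₀ ℕ) (he : e j = 0) :
    (cf e).comp (act (tv i j hij).1).toLinearMap =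
      ∑ q ∈ Finset.range (e i + 1), cf (e - Finsupp.single i q + Finsupp.single j q) := by
  classical
  refine (basisMonomials (Fin d) (ZMod 2)).ext (fun t => ?_)
  rw [coe_basisMonomials]
  show cf e (act (tv i j hij).1 (monomial t 1)) = _
  rw [LinearMap.sum_apply]
  have hact : act (tv i j hij).1 (monomial t 1) = ∑ m ∈ Finset.range (t j + 1),
      ((t j).choose m : ZMod 2) • monomial (t.erase j + Finsupp.single j m +
        Finsupp.single i (t j - m)) 1 := by
    rw [monomial_one_eq, map_prod, ← Finset.mul_prod_erase Finset.univ _ (Finset.mem_univ j),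
      map_pow, act_tv, if_pos rfl, add_pow, Finset.sum_mul]
    refine Finset.sum_congr rfl (fun m _ => ?_)
    have h1 : ∏ l ∈ Finset.univ.erase j, act (tv i j hij).1 (X l ^ t l) =
        monomial (t.erase j) (1 : ZMod 2) := by
      rw [monomial_one_eq, ← Finset.mul_prod_erase Finset.univ _ (Finset.mem_univ j),
        Finsupp.erase_same, pow_zero, one_mul]
      refine Finset.prod_congr rfl (fun l hl => ?_)
      have hl' := Finset.ne_of_mem_erase hl
      rw [map_pow, act_tv, if_neg hl', Finsupp.erase_ne hl']
    rw [h1, X_pow_eq_monomial, X_pow_eq_monomial, monomial_mul, mul_assoc, mul_comm,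
      mul_assoc, monomial_mul, smul_eq_C_mul, ← C_eq_coe_nat]
    congr 2
    simp [add_assoc]
  rw [hact, map_sum]
  have hL : ∑ m ∈ Finset.range (t j + 1), cf e (((t j).choose m : ZMod 2) •
      monomial (t.erase j + Finsupp.single j m + Finsupp.single i (t j - m)) (1 : ZMod 2)) =
      if t.erase j + Finsupp.single i (t j) = e then 1 else 0 := by
    rw [Finset.sum_eq_single 0]
    · rw [map_smul, cf_apply, coeff_monomial]
      simp
    · intro m _ hm
      rw [map_smul, cf_apply, coeff_monomial, if_neg, smul_zero]
      intro h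
      have := congrArg (fun g : Fin d →₀ ℕ => g j) h
      simp only [Finsupp.add_apply, Finsupp.erase_same, Finsupp.single_eq_same, he] at this
      simp [hij.symm] at this
      omega
    · intro h; exact absurd (Finset.mem_range.2 (Nat.succ_pos _)) h
  rw [hL]
  by_cases hte : t.erase j + Finsupp.single i (t j) = e
  · rw [if_pos hte, Finset.sum_eq_single (t j)]
    · rw [cf_apply, coeff_monomial, if_pos]
      rw [← hte, add_tsub_cancel_right]
      ext l
      by_cases hl : l = j
      · subst hl; simp
      · simp [hl, Ne.symm hl]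
    · intro q _ hq
      rw [cf_apply, coeff_monomial, if_neg]
      intro h
      apply hq
      have := congrArg (fun g : Fin d →₀ ℕ => g j) h
      simp [he] at this
      omega
    · intro h
      exfalso
      apply h
      rw [Finset.mem_range, ← hte]
      simp
  · rw [if_neg hte]
    symm
    refine Finset.sum_eq_zero (fun q hq => ?_)
    rw [Finset.mem_range] at hq
    rw [cf_apply, coeff_monomial, if_neg]
    intro h
    apply hte
    rw [h]
    ext l
    by_cases hl : l = j
    · subst hl
      simp [he, hij]
    · by_cases hli : l = i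
      · subst hli
        simp [he, hl, Ne.symm hl]
        omega
      · simp [hl, hli, Ne.symm hl, Ne.symm hli]

end Pool.Agent.TH542.Kam
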