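import Mathlib

/-!
# Kameko's squaring operation on coinvariants: the definitions used in the statements

`P d` is the polynomial algebra over the field with two elements in `d` variables of degree one,
with its Steenrod squares `Sq d k`. The graded dual is described by functions `P d → ZMod 2`.
-/

set_option autoImplicit false

namespace Pool.Agent.TH542.KamStmt

open MvPolynomial

/-- The polynomial algebra `𝔽₂[x_1, …, x_d]`. -/
abbrev P (d : ℕ) : Type := MvPolynomial (Fin d) (ZMod 2)

/-- The total Steenrod square: the ring homomorphism `P d → (P d)[T]` with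
`x_i ↦ x_i + x_i² T`. -/
noncomputable def totalSq (d : ℕ) : P d →+* Polynomial (P d) :=
  eval₂Hom (Polynomial.C.comp C)
    (fun i => Polynomial.C (X i) + Polynomial.C (X i ^ 2) * Polynomial.X)

/-- The Steenrod square `Sq^k` on `P d`: the coefficient of `T^k` in the total square. Thus
`Sq^0 = id`, `Sq^1 x_i = x_i²`, `Sq^k x_i = 0` for `k > 1`, and the Cartan formula holds. -/
noncomputable def Sq (d k : ℕ) (f : P d) : P d := (totalSq d f).coeff k

/-- The left action of `w ∈ GL_d(𝔽₂)` on `P d`: the substitution `x_j ↦ ∑ i, w i j x_i`. -/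
noncomputable def act {d : ℕ} (w : Matrix.GeneralLinearGroup (Fin d) (ZMod 2)) (f : P d) : P d :=
  eval₂ C (fun j => ∑ i, C (w.1 i j) * X i) f

/-- The linear map sending `x_1^(t_1) ⋯ x_d^(t_d)` to `x_1^((t_1-1)/2) ⋯ x_d^((t_d-1)/2)` if all
`t_i` are odd and to `0` otherwise. -/
noncomputable def kdown (d : ℕ) (f : P d) : P d :=
  ∑ t ∈ f.support, if ∀ i, Odd (t i) then
    monomial (t.mapRange (fun a => (a - 1) / 2) rfl) (f.coeff t) else 0

/-- The degree `n` part `H_n` of the graded dual of `P d`: the additive (equivalently, linear)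
functionals vanishing on all monomials of degree different from `n`. The functional dual to the
monomial `x^s` is the divided power monomial `a_1^(s_1) ⋯ a_d^(s_d)`. -/
def H (d n : ℕ) : Set (P d → ZMod 2) :=
  {z | (∀ f g, z (f + g) = z f + z g) ∧
    ∀ s : Fin d →₀ ℕ, ∑ i, s i ≠ n → z (monomial s 1) = 0}

/-- The primitives `PH_n`: the elements of `H_n` annihilated by all the dual squares
`z ↦ z ∘ Sq^k`, `k > 0`. -/
def PH (d n : ℕ) : Set (P d → ZMod 2) :=
  {z | z ∈ H d n ∧ ∀ k, 0 < k → ∀ f, z (Sq d k f) = 0}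

/-- The subgroup generated by the elements `z · w - z` with `z ∈ PH_n` and `w ∈ GL_d`, where
`z · w = z ∘ w` is the right action of `GL_d`. Thus `𝔽₂ ⊗_{GL_d} PH_n = PH_n / Aug_n`. -/
def Aug (d n : ℕ) : AddSubgroup (P d → ZMod 2) :=
  AddSubgroup.closure {y | ∃ w : Matrix.GeneralLinearGroup (Fin d) (ZMod 2), ∃ z ∈ PH d n,
    y = fun f => z (act w f) - z f}

/-- Kameko's squaring operation `𝔽₂ ⊗_{GL_d} PH_n → 𝔽₂ ⊗_{GL_d} PH_{d+2n}`, which is induced by
`z ↦ z ∘ kdown`, is injective: if the image of the class of `z ∈ PH_n` is zero then the class of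
`z` is zero. -/
def KamekoInjective (d n : ℕ) : Prop :=
  ∀ z ∈ PH d n, (fun f => z (kdown d f)) ∈ Aug d (d + 2 * n) → z ∈ Aug d n

end Pool.Agent.TH542.KamStmt
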